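import Pool.Agent.helper22.MCG.Lam

/-!
Final assembly: a non-separable surface subgroup of `Out (π₁ Σ₄)`.
-/

set_option autoImplicit false

namespace Pool.Agent.helper22.MCG

/-- The surface subgroup. -/
noncomputable def HH : Subgroup Out4 := (Lam.comp fS).range

theorem HH_iso : Nonempty (HH ≃* P4) :=
  ⟨(MonoidHom.ofInjective (f := Lam.comp fS) (Lam_injective.comp fS_injective)).symm⟩

theorem not_mem_HH : Lam (tt ^ (3 : ℤ)) ∉ HH := by
  rintro ⟨x, hx⟩
  exact tt_pow_not_mem (n := 3) (by norm_num) ⟨x, Lam_injective hx⟩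

theorem mem_of_finiteIndex (N : Subgroup Out4) (hN : N.FiniteIndex) (hH : HH ≤ N) :
    Lam (tt ^ (3 : ℤ)) ∈ N := by
  haveI := hN
  obtain ⟨n, hn, -, hn2⟩ := Subgroup.exists_pow_mem_of_index_ne_zero
    (H := N) (Subgroup.FiniteIndex.index_ne_zero) (Lam tt)
  show tt ^ (3 : ℤ) ∈ N.comap Lam
  apply tt_cube_mem (N.comap Lam) _ n (by omega)
  · rw [Subgroup.mem_comap, map_zpow, zpow_natCast]
    exact hn2
  · rintro _ ⟨x, rfl⟩
    exact hH ⟨x, rfl⟩

end Pool.Agent.helper22.MCG
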