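import Pool.Agent.helper22.MCG.Inj

/-!
Automorphisms of `F4 = ⟨p, q, c, x⟩` fixing the boundary word `dd = [p,q][c,x]`, and their
doubles on `P4`.
-/

set_option autoImplicit false
set_option linter.unusedSimpArgs false

namespace Pool.Agent.helper22.MCG

open HNNExtension

abbrev F4 := FreeGroup (Fin 4)
abbrev wp : F4 := FreeGroup.of 0
abbrev wq : F4 := FreeGroup.of 1
abbrev wc : F4 := FreeGroup.of 2
abbrev wx : F4 := FreeGroup.of 3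

/-- Boundary word. -/
def dd : F4 := wp * wq * wp⁻¹ * wq⁻¹ * (wc * wx * wc⁻¹ * wx⁻¹)

/-- Homomorphism out of `F4`. -/
def hm {L : Type*} [Group L] (a b c d : L) : F4 →* L := FreeGroup.lift ![a, b, c, d]

section
variable {L : Type*} [Group L] (a b c d : L)
@[simp] theorem hm_p : hm a b c d wp = a := by simp [hm]
@[simp] theorem hm_q : hm a b c d wq = b := by simp [hm]
@[simp] theorem hm_c : hm a b c d wc = c := by simp [hm]
@[simp] theorem hm_x : hm a b c d wx = d := by simp [hm]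
theorem hm_dd : hm a b c d dd = a * b * a⁻¹ * b⁻¹ * (c * d * c⁻¹ * d⁻¹) := by
  simp [hm, dd]
end

theorem hom_ext4 {L : Type*} [Group L] {f g : F4 →* L} (h0 : f wp = g wp) (h1 : f wq = g wq)
    (h2 : f wc = g wc) (h3 : f wx = g wx) : f = g := by
  ext i
  fin_cases i
  · exact h0
  · exact h1
  · exact h2
  · exact h3

theorem aut_ext4 {f g : MulAut F4} (h0 : f wp = g wp) (h1 : f wq = g wq)
    (h2 : f wc = g wc) (h3 : f wx = g wx) : f = g := by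
  have : f.toMonoidHom = g.toMonoidHom := hom_ext4 h0 h1 h2 h3
  ext x
  exact DFunLike.congr_fun this x

/-- `push p` -/
def fPp : F4 →* F4 := hm wp (dd⁻¹ * wp * wq * wp⁻¹) (dd⁻¹ * wp * wc * wp⁻¹ * dd)
  (dd⁻¹ * wp * wx * wp⁻¹ * dd)
def iPp : F4 →* F4 := hm wp (wp⁻¹ * dd * wq * wp) (wp⁻¹ * dd * wc * dd⁻¹ * wp)
  (wp⁻¹ * dd * wx * dd⁻¹ * wp)
/-- `push q` -/
def fPq : F4 →* F4 := hm (dd * wq * wp * wq⁻¹) wq (wq * dd * wc * dd⁻¹ * wq⁻¹)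
  (wq * dd * wx * dd⁻¹ * wq⁻¹)
def iPq : F4 →* F4 := hm (wq⁻¹ * dd⁻¹ * wp * wq) wq (dd⁻¹ * wq⁻¹ * wc * wq * dd)
  (dd⁻¹ * wq⁻¹ * wx * wq * dd)
/-- `push c` -/
def fPc : F4 →* F4 := hm (wc * dd⁻¹ * wp * dd * wc⁻¹) (wc * dd⁻¹ * wq * dd * wc⁻¹) wc
  (dd⁻¹ * wc * wx * wc⁻¹)
def iPc : F4 →* F4 := hm (dd * wc⁻¹ * wp * wc * dd⁻¹) (dd * wc⁻¹ * wq * wc * dd⁻¹) wc
  (wc⁻¹ * dd * wx * wc)
/-- `push x` -/
def fPx : F4 →* F4 := hm (dd * wx * wp * wx⁻¹ * dd⁻¹) (dd * wx * wq * wx⁻¹ * dd⁻¹)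
  (dd * wx * wc * wx⁻¹) wx
def iPx : F4 →* F4 := hm (wx⁻¹ * dd⁻¹ * wp * dd * wx) (wx⁻¹ * dd⁻¹ * wq * dd * wx)
  (wx⁻¹ * dd⁻¹ * wc * wx) wx
/-- Dehn twist -/
def fT : F4 →* F4 := hm wp wq wc (wx * wc⁻¹)
def iT : F4 →* F4 := hm wp wq wc (wx * wc)

theorem fPp_dd : fPp dd = dd := by rw [fPp, hm_dd]; simp only [dd]; group
theorem iPp_dd : iPp dd = dd := by rw [iPp, hm_dd]; simp only [dd]; group
theorem fPq_dd : fPq dd = dd := by rw [fPq, hm_dd]; simp only [dd]; group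
theorem iPq_dd : iPq dd = dd := by rw [iPq, hm_dd]; simp only [dd]; group
theorem fPc_dd : fPc dd = dd := by rw [fPc, hm_dd]; simp only [dd]; group
theorem iPc_dd : iPc dd = dd := by rw [iPc, hm_dd]; simp only [dd]; group
theorem fPx_dd : fPx dd = dd := by rw [fPx, hm_dd]; simp only [dd]; group
theorem iPx_dd : iPx dd = dd := by rw [iPx, hm_dd]; simp only [dd]; group
theorem fT_dd : fT dd = dd := by rw [fT, hm_dd]; simp only [dd]; group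
theorem iT_dd : iT dd = dd := by rw [iT, hm_dd]; simp only [dd]; group

theorem fPp_p : fPp wp = wp := hm_p ..
theorem fPp_q : fPp wq = dd⁻¹ * wp * wq * wp⁻¹ := hm_q ..
theorem fPp_c : fPp wc = dd⁻¹ * wp * wc * wp⁻¹ * dd := hm_c ..
theorem fPp_x : fPp wx = dd⁻¹ * wp * wx * wp⁻¹ * dd := hm_x ..
theorem iPp_p : iPp wp = wp := hm_p ..
theorem iPp_q : iPp wq = wp⁻¹ * dd * wq * wp := hm_q ..
theorem iPp_c : iPp wc = wp⁻¹ * dd * wc * dd⁻¹ * wp := hm_c ..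
theorem iPp_x : iPp wx = wp⁻¹ * dd * wx * dd⁻¹ * wp := hm_x ..
theorem fPq_p : fPq wp = dd * wq * wp * wq⁻¹ := hm_p ..
theorem fPq_q : fPq wq = wq := hm_q ..
theorem fPq_c : fPq wc = wq * dd * wc * dd⁻¹ * wq⁻¹ := hm_c ..
theorem fPq_x : fPq wx = wq * dd * wx * dd⁻¹ * wq⁻¹ := hm_x ..
theorem iPq_p : iPq wp = wq⁻¹ * dd⁻¹ * wp * wq := hm_p ..
theorem iPq_q : iPq wq = wq := hm_q ..
theorem iPq_c : iPq wc = dd⁻¹ * wq⁻¹ * wc * wq * dd := hm_c ..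
theorem iPq_x : iPq wx = dd⁻¹ * wq⁻¹ * wx * wq * dd := hm_x ..
theorem fPc_p : fPc wp = wc * dd⁻¹ * wp * dd * wc⁻¹ := hm_p ..
theorem fPc_q : fPc wq = wc * dd⁻¹ * wq * dd * wc⁻¹ := hm_q ..
theorem fPc_c : fPc wc = wc := hm_c ..
theorem fPc_x : fPc wx = dd⁻¹ * wc * wx * wc⁻¹ := hm_x ..
theorem iPc_p : iPc wp = dd * wc⁻¹ * wp * wc * dd⁻¹ := hm_p ..
theorem iPc_q : iPc wq = dd * wc⁻¹ * wq * wc * dd⁻¹ := hm_q ..
theorem iPc_c : iPc wc = wc := hm_c ..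
theorem iPc_x : iPc wx = wc⁻¹ * dd * wx * wc := hm_x ..
theorem fPx_p : fPx wp = dd * wx * wp * wx⁻¹ * dd⁻¹ := hm_p ..
theorem fPx_q : fPx wq = dd * wx * wq * wx⁻¹ * dd⁻¹ := hm_q ..
theorem fPx_c : fPx wc = dd * wx * wc * wx⁻¹ := hm_c ..
theorem fPx_x : fPx wx = wx := hm_x ..
theorem iPx_p : iPx wp = wx⁻¹ * dd⁻¹ * wp * dd * wx := hm_p ..
theorem iPx_q : iPx wq = wx⁻¹ * dd⁻¹ * wq * dd * wx := hm_q ..
theorem iPx_c : iPx wc = wx⁻¹ * dd⁻¹ * wc * wx := hm_c ..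
theorem iPx_x : iPx wx = wx := hm_x ..
theorem fT_p : fT wp = wp := hm_p ..
theorem fT_q : fT wq = wq := hm_q ..
theorem fT_c : fT wc = wc := hm_c ..
theorem fT_x : fT wx = wx * wc⁻¹ := hm_x ..
theorem iT_p : iT wp = wp := hm_p ..
theorem iT_q : iT wq = wq := hm_q ..
theorem iT_c : iT wc = wc := hm_c ..
theorem iT_x : iT wx = wx * wc := hm_x ..

/-- Automorphism from a pair of mutually inverse homomorphisms. -/
def aPp : MulAut F4 := MonoidHom.toMulEquiv fPp iPp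
  (by apply hom_ext4 <;> simp only [MonoidHom.comp_apply, MonoidHom.id_apply, map_mul, map_inv,
    fPp_p, fPp_q, fPp_c, fPp_x, iPp_p, iPp_q, iPp_c, iPp_x, fPp_dd, iPp_dd] <;> group)
  (by apply hom_ext4 <;> simp only [MonoidHom.comp_apply, MonoidHom.id_apply, map_mul, map_inv,
    fPp_p, fPp_q, fPp_c, fPp_x, iPp_p, iPp_q, iPp_c, iPp_x, fPp_dd, iPp_dd] <;> group)
def aPq : MulAut F4 := MonoidHom.toMulEquiv fPq iPq
  (by apply hom_ext4 <;> simp only [MonoidHom.comp_apply, MonoidHom.id_apply, map_mul, map_inv,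
    fPq_p, fPq_q, fPq_c, fPq_x, iPq_p, iPq_q, iPq_c, iPq_x, fPq_dd, iPq_dd] <;> group)
  (by apply hom_ext4 <;> simp only [MonoidHom.comp_apply, MonoidHom.id_apply, map_mul, map_inv,
    fPq_p, fPq_q, fPq_c, fPq_x, iPq_p, iPq_q, iPq_c, iPq_x, fPq_dd, iPq_dd] <;> group)
def aPc : MulAut F4 := MonoidHom.toMulEquiv fPc iPc
  (by apply hom_ext4 <;> simp only [MonoidHom.comp_apply, MonoidHom.id_apply, map_mul, map_inv,
    fPc_p, fPc_q, fPc_c, fPc_x, iPc_p, iPc_q, iPc_c, iPc_x, fPc_dd, iPc_dd] <;> group)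
  (by apply hom_ext4 <;> simp only [MonoidHom.comp_apply, MonoidHom.id_apply, map_mul, map_inv,
    fPc_p, fPc_q, fPc_c, fPc_x, iPc_p, iPc_q, iPc_c, iPc_x, fPc_dd, iPc_dd] <;> group)
def aPx : MulAut F4 := MonoidHom.toMulEquiv fPx iPx
  (by apply hom_ext4 <;> simp only [MonoidHom.comp_apply, MonoidHom.id_apply, map_mul, map_inv,
    fPx_p, fPx_q, fPx_c, fPx_x, iPx_p, iPx_q, iPx_c, iPx_x, fPx_dd, iPx_dd] <;> group)
  (by apply hom_ext4 <;> simp only [MonoidHom.comp_apply, MonoidHom.id_apply, map_mul, map_inv,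
    fPx_p, fPx_q, fPx_c, fPx_x, iPx_p, iPx_q, iPx_c, iPx_x, fPx_dd, iPx_dd] <;> group)
def aT : MulAut F4 := MonoidHom.toMulEquiv fT iT
  (by apply hom_ext4 <;> simp only [MonoidHom.comp_apply, MonoidHom.id_apply, map_mul, map_inv,
    fT_p, fT_q, fT_c, fT_x, iT_p, iT_q, iT_c, iT_x] <;> group)
  (by apply hom_ext4 <;> simp only [MonoidHom.comp_apply, MonoidHom.id_apply, map_mul, map_inv,
    fT_p, fT_q, fT_c, fT_x, iT_p, iT_q, iT_c, iT_x] <;> group)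

theorem aPp_apply (w : F4) : aPp w = fPp w := rfl
theorem aPq_apply (w : F4) : aPq w = fPq w := rfl
theorem aPc_apply (w : F4) : aPc w = fPc w := rfl
theorem aPx_apply (w : F4) : aPx w = fPx w := rfl
theorem aT_apply (w : F4) : aT w = fT w := rfl

/-- Stabiliser of the boundary word. -/
def Stab : Subgroup (MulAut F4) where
  carrier := {φ | φ dd = dd}
  mul_mem' := by
    intro a b ha hb
    show a (b dd) = dd
    rw [show b dd = dd from hb, show a dd = dd from ha]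
  one_mem' := rfl
  inv_mem' := by
    intro a ha
    show a.symm dd = dd
    rw [MulEquiv.symm_apply_eq]
    exact (show a dd = dd from ha).symm

def sPp : Stab := ⟨aPp, fPp_dd⟩
def sPq : Stab := ⟨aPq, fPq_dd⟩
def sPc : Stab := ⟨aPc, fPc_dd⟩
def sPx : Stab := ⟨aPx, fPx_dd⟩
def sT : Stab := ⟨aT, fT_dd⟩

/-- Conjugation by the boundary word. -/
def sD : Stab := ⟨MulAut.conj dd, by show dd * dd * dd⁻¹ = dd; group⟩

theorem comm_T_Pp : sT * sPp = sPp * sT := by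
  apply Subtype.ext
  apply aut_ext4 <;> simp only [sT, sPp, Subgroup.coe_mul, MulAut.mul_apply, aPp_apply, aT_apply, map_mul, map_inv, fPp_p, fPp_q,
    fPp_c, fPp_x, fT_p, fT_q, fT_c, fT_x, fPp_dd, fT_dd] <;> group

theorem comm_T_Pq : sT * sPq = sPq * sT := by
  apply Subtype.ext
  apply aut_ext4 <;> simp only [sT, sPq, Subgroup.coe_mul, MulAut.mul_apply, aPq_apply, aT_apply, map_mul, map_inv, fPq_p, fPq_q,
    fPq_c, fPq_x, fT_p, fT_q, fT_c, fT_x, fPq_dd, fT_dd] <;> group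

theorem comm_T_Pc : sT * sPc = sPc * sT := by
  apply Subtype.ext
  apply aut_ext4 <;> simp only [sT, sPc, Subgroup.coe_mul, MulAut.mul_apply, aPc_apply, aT_apply, map_mul, map_inv, fPc_p, fPc_q,
    fPc_c, fPc_x, fT_p, fT_q, fT_c, fT_x, fPc_dd, fT_dd] <;> group

/-- `push` of `[p,q]c` (up to boundary twists). -/
def fPe : F4 →* F4 := hm ((wp * wq * wp⁻¹ * wq⁻¹ * wc) * wp * (wp * wq * wp⁻¹ * wq⁻¹ * wc)⁻¹)
  ((wp * wq * wp⁻¹ * wq⁻¹ * wc) * wq * (wp * wq * wp⁻¹ * wq⁻¹ * wc)⁻¹)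
  ((wp * wq * wp⁻¹ * wq⁻¹ * wc) * wc * (wp * wq * wp⁻¹ * wq⁻¹ * wc)⁻¹)
  (wx * wc * (wp * wq * wp⁻¹ * wq⁻¹ * wc)⁻¹)

theorem fPe_p : fPe wp = (wp * wq * wp⁻¹ * wq⁻¹ * wc) * wp * (wp * wq * wp⁻¹ * wq⁻¹ * wc)⁻¹ :=
  hm_p ..
theorem fPe_q : fPe wq = (wp * wq * wp⁻¹ * wq⁻¹ * wc) * wq * (wp * wq * wp⁻¹ * wq⁻¹ * wc)⁻¹ :=
  hm_q ..
theorem fPe_c : fPe wc = (wp * wq * wp⁻¹ * wq⁻¹ * wc) * wc * (wp * wq * wp⁻¹ * wq⁻¹ * wc)⁻¹ :=
  hm_c ..
theorem fPe_x : fPe wx = wx * wc * (wp * wq * wp⁻¹ * wq⁻¹ * wc)⁻¹ := hm_x ..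
theorem fPe_dd : fPe dd = dd := by rw [fPe, hm_dd]; simp only [dd]; group

theorem Pe_Px : fPe.comp fPx = fPx.comp fPc := by
  apply hom_ext4 <;> simp only [MonoidHom.comp_apply, map_mul, map_inv, fPx_p, fPx_q, fPx_c, fPx_x,
    fPc_p, fPc_q, fPc_c, fPc_x, fPe_p, fPe_q, fPe_c, fPe_x, fPe_dd, fPx_dd] <;>
    simp only [dd] <;> group

/-- Conjugation by `dd ^ 2` as a homomorphism. -/
def fD2 : F4 →* F4 := (MulAut.conj (dd * dd)).toMonoidHom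

theorem fD2_apply (w : F4) : fD2 w = dd * dd * w * (dd * dd)⁻¹ := rfl

theorem Pe_rel : fPe.comp (iPc.comp (fPq.comp fPp)) = fD2.comp (fPp.comp fPq) := by
  apply hom_ext4 <;> simp only [MonoidHom.comp_apply, map_mul, map_inv, fPp_p, fPp_q, fPp_c, fPp_x,
    fPq_p, fPq_q, fPq_c, fPq_x, iPc_p, iPc_q, iPc_c, iPc_x, fPe_p, fPe_q, fPe_c, fPe_x, fPe_dd,
    iPc_dd, fPq_dd, fPp_dd, fD2_apply] <;>
    simp only [dd] <;> group

theorem aPx_aPc : aPx * aPc =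
    MulAut.conj (dd * dd) * (aPp * aPq * aPp⁻¹ * aPq⁻¹ * aPc) * aPx := by
  have h1 : ∀ w, (aPx * aPc * aPx⁻¹) w = fPe w := by
    intro w
    have h := DFunLike.congr_fun Pe_Px (aPx⁻¹ w)
    have h2 : fPx (aPx⁻¹ w) = w := by
      rw [← aPx_apply, ← MulAut.mul_apply, mul_inv_cancel]; rfl
    rw [MonoidHom.comp_apply, MonoidHom.comp_apply, h2] at h
    rw [h]; rfl
  have h3 : aPx * aPc * aPx⁻¹ * (aPc⁻¹ * (aPq * aPp)) =
      MulAut.conj (dd * dd) * (aPp * aPq) := by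
    ext w
    have h := DFunLike.congr_fun Pe_rel w
    rw [MulAut.mul_apply, h1]
    exact h
  have h4 : aPx * aPc * aPx⁻¹ = MulAut.conj (dd * dd) * (aPp * aPq) * (aPc⁻¹ * (aPq * aPp))⁻¹ := by
    rw [← h3]; simp only [mul_assoc, mul_inv_cancel, mul_one]
  have h5 : aPx * aPc = MulAut.conj (dd * dd) * (aPp * aPq) * (aPc⁻¹ * (aPq * aPp))⁻¹ * aPx := by
    rw [← h4]; simp only [mul_assoc, inv_mul_cancel, mul_one]
  rw [h5]
  group

theorem sPx_sPc : sPx * sPc = (sD * sD) * (sPp * sPq * sPp⁻¹ * sPq⁻¹ * sPc) * sPx := by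
  apply Subtype.ext
  show aPx * aPc = (MulAut.conj dd * MulAut.conj dd) * (aPp * aPq * aPp⁻¹ * aPq⁻¹ * aPc) * aPx
  rw [← map_mul]
  exact aPx_aPc

theorem sPx_sT : sPx * sT = (sD * sD) * (sPp * sPq * sPp⁻¹ * sPq⁻¹ * sPc) * sT * sPx := by
  have h : fPx.comp fT = fPe.comp (fT.comp fPx) := by
    apply hom_ext4 <;> simp only [MonoidHom.comp_apply, map_mul, map_inv, fPx_p, fPx_q, fPx_c,
      fPx_x, fT_p, fT_q, fT_c, fT_x, fPe_p, fPe_q, fPe_c, fPe_x, fPe_dd, fT_dd] <;>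
      simp only [dd] <;> group
  have h1 : ∀ w, (MulAut.conj (dd * dd) * (aPp * aPq * aPp⁻¹ * aPq⁻¹ * aPc)) w = fPe w := by
    intro w
    have h := DFunLike.congr_fun Pe_Px (aPx⁻¹ w)
    have h2 : fPx (aPx⁻¹ w) = w := by
      rw [← aPx_apply, ← MulAut.mul_apply, mul_inv_cancel]; rfl
    rw [MonoidHom.comp_apply, MonoidHom.comp_apply, h2] at h
    rw [h]
    have h3 : MulAut.conj (dd * dd) * (aPp * aPq * aPp⁻¹ * aPq⁻¹ * aPc) = aPx * aPc * aPx⁻¹ := by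
      rw [aPx_aPc]; simp only [mul_assoc, mul_inv_cancel, mul_one]
    rw [h3]; rfl
  apply Subtype.ext
  show aPx * aT = (MulAut.conj dd * MulAut.conj dd) * (aPp * aPq * aPp⁻¹ * aPq⁻¹ * aPc) * aT * aPx
  rw [← map_mul]
  ext w
  have h4 := DFunLike.congr_fun h w
  rw [mul_assoc _ aT aPx]
  exact h4.trans (h1 ((aT * aPx) w)).symm

end Pool.Agent.helper22.MCG
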