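import Pool.Agent.helper22.MCG.HNN

/-!
The free group `F3 = ⟨p, q, c⟩`, the vertex group `V = F3 × ℤ` and the HNN extension `G1` of `V`
(the mapping torus of a Dehn twist on a once punctured closed surface group quotient), together
with the presented group `P4` (closed surface group of genus `4`).
-/

set_option autoImplicit false

namespace Pool.Agent.helper22.MCG

open HNNExtension

/-- Free group on `p, q, c`. -/
abbrev F3 := FreeGroup (Fin 3)

/-- Generator `p`. -/
abbrev gp : F3 := FreeGroup.of 0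
/-- Generator `q`. -/
abbrev gq : F3 := FreeGroup.of 1
/-- Generator `c`. -/
abbrev gc : F3 := FreeGroup.of 2
/-- The element `[p,q] c`. -/
abbrev gm : F3 := gp * gq * gp⁻¹ * gq⁻¹ * gc

/-- Infinite cyclic group. -/
abbrev Z := Multiplicative ℤ

/-- Generator of the infinite cyclic group. -/
abbrev z1 : Z := Multiplicative.ofAdd 1

/-- Vertex group. -/
abbrev V := F3 × Z

/-- Exponent sum of `c`. -/
def chiC : F3 →* Z := FreeGroup.lift ![1, 1, z1]

/-- Exponent sum of `p`. -/
def chiP : F3 →* Z := FreeGroup.lift ![z1, 1, 1]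

@[simp] theorem chiC_p : chiC gp = 1 := by simp [chiC]
@[simp] theorem chiC_q : chiC gq = 1 := by simp [chiC]
@[simp] theorem chiC_c : chiC gc = z1 := by simp [chiC]
@[simp] theorem chiP_p : chiP gp = z1 := by simp [chiP]
@[simp] theorem chiP_q : chiP gq = 1 := by simp [chiP]
@[simp] theorem chiP_c : chiP gc = 1 := by simp [chiP]

/-- First edge inclusion `(i, j) ↦ (c ^ i, j)`. -/
def ea : Z × Z →* V := MonoidHom.prodMap (zpowersHom F3 gc) (MonoidHom.id Z)

/-- Second edge inclusion `(i, j) ↦ ([p,q]c ^ (i + j), j)`. -/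
def eb : Z × Z →* V :=
  MonoidHom.prod ((zpowersHom F3 gm).comp
    (MonoidHom.coprod (MonoidHom.id Z) (MonoidHom.id Z))) (MonoidHom.snd Z Z)

theorem ea_apply (i j : ℤ) :
    ea (Multiplicative.ofAdd i, Multiplicative.ofAdd j) = (gc ^ i, Multiplicative.ofAdd j) := by
  simp [ea]

theorem eb_apply (i j : ℤ) :
    eb (Multiplicative.ofAdd i, Multiplicative.ofAdd j) =
      (gm ^ (i + j), Multiplicative.ofAdd j) := by
  have : Multiplicative.ofAdd i * Multiplicative.ofAdd j = Multiplicative.ofAdd (i + j) := rfl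
  simp only [eb, MonoidHom.prod_apply, MonoidHom.comp_apply, MonoidHom.coprod_apply,
    MonoidHom.id_apply, this]
  simp

theorem chiC_gm : chiC gm = z1 := by simp

theorem ofAdd_one_zpow (i : ℤ) : z1 ^ i = Multiplicative.ofAdd i := by
  rw [← ofAdd_zsmul]; simp

theorem ea_injective : Function.Injective ea := by
  rw [injective_iff_map_eq_one]
  rintro ⟨i, j⟩ h
  have hi : ea (i, j) = (gc ^ (Multiplicative.toAdd i), j) := ea_apply _ _
  rw [hi, Prod.mk_eq_one] at h
  have h1 := congrArg chiC h.1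
  rw [map_zpow, chiC_c, map_one, ofAdd_one_zpow] at h1
  ext
  · exact congrArg Multiplicative.toAdd h1
  · exact congrArg Multiplicative.toAdd h.2

theorem eb_injective : Function.Injective eb := by
  rw [injective_iff_map_eq_one]
  rintro ⟨i, j⟩ h
  have hi : eb (i, j) = (gm ^ (Multiplicative.toAdd i + Multiplicative.toAdd j), j) :=
    eb_apply _ _
  rw [hi, Prod.mk_eq_one] at h
  have h1 := congrArg chiC h.1
  rw [map_zpow, chiC_gm, map_one, ofAdd_one_zpow] at h1
  have h2 : Multiplicative.toAdd i + Multiplicative.toAdd j = 0 :=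
    congrArg Multiplicative.toAdd h1
  have h3 : Multiplicative.toAdd j = 0 := congrArg Multiplicative.toAdd h.2
  ext
  · show Multiplicative.toAdd i = 0
    omega
  · exact h3

/-- Edge isomorphism. -/
noncomputable def eφ : ea.range ≃* eb.range :=
  (MonoidHom.ofInjective ea_injective).symm.trans (MonoidHom.ofInjective eb_injective)

theorem eφ_apply (m : Z × Z) : ((eφ ⟨ea m, ⟨m, rfl⟩⟩ : eb.range) : V) = eb m := by
  have : (⟨ea m, ⟨m, rfl⟩⟩ : ea.range) = MonoidHom.ofInjective ea_injective m := rfl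
  rw [eφ, MulEquiv.trans_apply, this, MulEquiv.symm_apply_apply]
  rfl

/-- The HNN extension of `F3 × ℤ`. -/
abbrev G1 := HNNExtension V ea.range eb.range eφ

/-- Inclusion of the vertex group. -/
noncomputable abbrev vv : V →* G1 := HNNExtension.of

/-- Stable letter. -/
noncomputable abbrev xx : G1 := HNNExtension.t

theorem xx_conj_ea (m : Z × Z) : xx * vv (ea m) * xx⁻¹ = vv (eb m) := by
  have := (equiv_eq_conj (φ := eφ) ⟨ea m, ⟨m, rfl⟩⟩).symm
  rw [eφ_apply] at this
  exact this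

theorem xx_conj (i j : ℤ) :
    xx * vv (gc ^ i, Multiplicative.ofAdd j) * xx⁻¹ =
      vv (gm ^ (i + j), Multiplicative.ofAdd j) := by
  rw [← ea_apply, xx_conj_ea, eb_apply]

/-- To define a homomorphism out of `G1`. -/
theorem lift_cond {L : Type*} [Group L] (f : V →* L) (x : L)
    (h : ∀ m, x * f (ea m) = f (eb m) * x) (a : ea.range) : x * f ↑a = f (eφ a : V) * x := by
  obtain ⟨_, ⟨m, rfl⟩⟩ := a
  rw [eφ_apply]
  exact h m

/-- Surface relator of genus `4`. -/
abbrev rel4 : FreeGroup (Fin 4 × Fin 2) :=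
  ((List.finRange 4).map (fun i : Fin 4 =>
            FreeGroup.of (i, (0 : Fin 2)) * FreeGroup.of (i, (1 : Fin 2)) *
            (FreeGroup.of (i, (0 : Fin 2)))⁻¹ * (FreeGroup.of (i, (1 : Fin 2)))⁻¹)).prod

/-- Surface group of genus `4`. -/
abbrev P4 := PresentedGroup ({((List.finRange 4).map (fun i : Fin 4 =>
            FreeGroup.of (i, (0 : Fin 2)) * FreeGroup.of (i, (1 : Fin 2)) *
            (FreeGroup.of (i, (0 : Fin 2)))⁻¹ * (FreeGroup.of (i, (1 : Fin 2)))⁻¹)).prod} :
            Set (FreeGroup (Fin 4 × Fin 2)))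

/-- Standard generators of the surface group. -/
abbrev pg (i : Fin 4) (j : Fin 2) : P4 := PresentedGroup.of (i, j)

theorem lift_rel4 {L : Type*} [Group L] (u : Fin 4 × Fin 2 → L) :
    FreeGroup.lift u rel4 =
      (u (0, 0) * u (0, 1) * (u (0, 0))⁻¹ * (u (0, 1))⁻¹) *
      (u (1, 0) * u (1, 1) * (u (1, 0))⁻¹ * (u (1, 1))⁻¹) *
      (u (2, 0) * u (2, 1) * (u (2, 0))⁻¹ * (u (2, 1))⁻¹) *
      (u (3, 0) * u (3, 1) * (u (3, 0))⁻¹ * (u (3, 1))⁻¹) := by
  have : List.finRange 4 = [0, 1, 2, 3] := by decide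
  simp only [rel4, this, List.map_cons, List.map_nil, List.prod_cons, List.prod_nil, map_mul,
    map_inv, FreeGroup.lift_apply_of, mul_one, mul_assoc]

theorem P4_rel :
    (pg 0 0 * pg 0 1 * (pg 0 0)⁻¹ * (pg 0 1)⁻¹) *
      (pg 1 0 * pg 1 1 * (pg 1 0)⁻¹ * (pg 1 1)⁻¹) *
      (pg 2 0 * pg 2 1 * (pg 2 0)⁻¹ * (pg 2 1)⁻¹) *
      (pg 3 0 * pg 3 1 * (pg 3 0)⁻¹ * (pg 3 1)⁻¹) = (1 : P4) := by
  have h : PresentedGroup.mk {rel4} rel4 = 1 := PresentedGroup.one_of_mem rfl
  have h2 : PresentedGroup.mk {rel4} =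
      FreeGroup.lift (fun i => (PresentedGroup.of i : PresentedGroup {rel4})) := by
    ext i; simp [PresentedGroup.of]
  rw [h2, lift_rel4] at h
  exact h

/-- Homomorphism out of the surface group. -/
def liftP4 {L : Type*} [Group L] (u : Fin 4 × Fin 2 → L)
    (h : (u (0, 0) * u (0, 1) * (u (0, 0))⁻¹ * (u (0, 1))⁻¹) *
      (u (1, 0) * u (1, 1) * (u (1, 0))⁻¹ * (u (1, 1))⁻¹) *
      (u (2, 0) * u (2, 1) * (u (2, 0))⁻¹ * (u (2, 1))⁻¹) *
      (u (3, 0) * u (3, 1) * (u (3, 0))⁻¹ * (u (3, 1))⁻¹) = 1) : P4 →* L :=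
  PresentedGroup.toGroup (f := u) (by
    intro r hr
    rw [Set.mem_singleton_iff] at hr
    rw [hr]
    exact (lift_rel4 u).trans h)

@[simp] theorem liftP4_of {L : Type*} [Group L] (u : Fin 4 × Fin 2 → L) (h) (i : Fin 4)
    (j : Fin 2) : liftP4 u h (pg i j) = u (i, j) := by
  simp [liftP4, pg]

end Pool.Agent.helper22.MCG
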