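import Pool.Agent.helper22.MCG.Aut

/-!
Doubling automorphisms of `F4` fixing `dd` to automorphisms of `P4`.
-/

set_option autoImplicit false
set_option linter.unusedSimpArgs false

namespace Pool.Agent.helper22.MCG

open HNNExtension

/-- First copy of `F4` in `P4`. -/
def j1 : F4 →* P4 := hm (pg 0 0) (pg 0 1) (pg 1 0) (pg 1 1)
/-- Second copy of `F4` in `P4`. -/
def j2 : F4 →* P4 := hm (pg 3 1) (pg 3 0) (pg 2 1) (pg 2 0)

theorem j1_dd : j1 dd = j2 dd := by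
  rw [j1, j2, hm_dd, hm_dd, ← mul_inv_eq_one]
  have h := P4_rel
  rw [← h]
  group

/-- Universal property of `P4` as a double. -/
def dl {L : Type*} [Group L] (u v : F4 →* L) (h : u dd = v dd) : P4 →* L :=
  liftP4 (fun ij => (![![u wp, u wq], ![u wc, u wx], ![v wx, v wc], ![v wq, v wp]] :
    Fin 4 → Fin 2 → L) ij.1 ij.2) (by
    have h' : u wp * u wq * (u wp)⁻¹ * (u wq)⁻¹ * (u wc * u wx * (u wc)⁻¹ * (u wx)⁻¹) =
      v wp * v wq * (v wp)⁻¹ * (v wq)⁻¹ * (v wc * v wx * (v wc)⁻¹ * (v wx)⁻¹) := by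
      simpa [dd] using h
    show (u wp * u wq * (u wp)⁻¹ * (u wq)⁻¹) * (u wc * u wx * (u wc)⁻¹ * (u wx)⁻¹) *
      (v wx * v wc * (v wx)⁻¹ * (v wc)⁻¹) * (v wq * v wp * (v wq)⁻¹ * (v wp)⁻¹) = 1
    rw [h']
    group)

theorem dl_j1 {L : Type*} [Group L] (u v : F4 →* L) (h : u dd = v dd) (w : F4) :
    dl u v h (j1 w) = u w := by
  have : (dl u v h).comp j1 = u := by
    apply hom_ext4 <;> simp [j1, dl]
  exact DFunLike.congr_fun this w

theorem dl_j2 {L : Type*} [Group L] (u v : F4 →* L) (h : u dd = v dd) (w : F4) :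
    dl u v h (j2 w) = v w := by
  have : (dl u v h).comp j2 = v := by
    apply hom_ext4 <;> simp [j2, dl]
  exact DFunLike.congr_fun this w

theorem hom_extP {L : Type*} [Group L] {f g : P4 →* L} (h1 : ∀ w, f (j1 w) = g (j1 w))
    (h2 : ∀ w, f (j2 w) = g (j2 w)) : f = g := by
  apply PresentedGroup.ext
  rintro ⟨i, j⟩
  have a0 := h1 wp
  have a1 := h1 wq
  have a2 := h1 wc
  have a3 := h1 wx
  have b0 := h2 wp
  have b1 := h2 wq
  have b2 := h2 wc
  have b3 := h2 wx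
  simp only [j1, j2, hm_p, hm_q, hm_c, hm_x] at a0 a1 a2 a3 b0 b1 b2 b3
  fin_cases i <;> fin_cases j
  · exact a0
  · exact a1
  · exact a2
  · exact a3
  · exact b3
  · exact b2
  · exact b1
  · exact b0

/-- The doubled endomorphism. -/
def dh (φ : Stab) : P4 →* P4 :=
  dl (j1.comp (φ : MulAut F4).toMonoidHom) (j2.comp (φ : MulAut F4).toMonoidHom) (by
    show j1 ((φ : MulAut F4) dd) = j2 ((φ : MulAut F4) dd)
    rw [show (φ : MulAut F4) dd = dd from φ.2]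
    exact j1_dd)

theorem dh_j1 (φ : Stab) (w : F4) : dh φ (j1 w) = j1 ((φ : MulAut F4) w) := dl_j1 _ _ _ _
theorem dh_j2 (φ : Stab) (w : F4) : dh φ (j2 w) = j2 ((φ : MulAut F4) w) := dl_j2 _ _ _ _

theorem dh_mul (φ ψ : Stab) : dh (φ * ψ) = (dh φ).comp (dh ψ) := by
  apply hom_extP
  · intro w
    rw [MonoidHom.comp_apply, dh_j1, dh_j1, dh_j1]; rfl
  · intro w
    rw [MonoidHom.comp_apply, dh_j2, dh_j2, dh_j2]; rfl

theorem dh_one : dh 1 = MonoidHom.id _ := by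
  apply hom_extP
  · intro w
    rw [dh_j1]; rfl
  · intro w
    rw [dh_j2]; rfl

/-- The doubled automorphism. -/
def Dbl : Stab →* MulAut P4 where
  toFun φ := MonoidHom.toMulEquiv (dh φ) (dh φ⁻¹) (by rw [← dh_mul, inv_mul_cancel, dh_one])
    (by rw [← dh_mul, mul_inv_cancel, dh_one])
  map_one' := by
    ext x
    show dh 1 x = x
    rw [dh_one]; rfl
  map_mul' φ ψ := by
    ext x
    show dh (φ * ψ) x = dh φ (dh ψ x)
    rw [dh_mul]; rfl

theorem Dbl_j1 (φ : Stab) (w : F4) : Dbl φ (j1 w) = j1 ((φ : MulAut F4) w) := dh_j1 φ w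
theorem Dbl_j2 (φ : Stab) (w : F4) : Dbl φ (j2 w) = j2 ((φ : MulAut F4) w) := dh_j2 φ w

theorem mulAut_extP {f g : MulAut P4} (h1 : ∀ w, f (j1 w) = g (j1 w))
    (h2 : ∀ w, f (j2 w) = g (j2 w)) : f = g := by
  have : f.toMonoidHom = g.toMonoidHom := hom_extP h1 h2
  ext x
  exact DFunLike.congr_fun this x

theorem Dbl_sD : Dbl sD = MulAut.conj (j1 dd) := by
  apply mulAut_extP
  · intro w
    rw [Dbl_j1]
    show j1 (dd * w * dd⁻¹) = j1 dd * j1 w * (j1 dd)⁻¹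
    simp only [map_mul, map_inv]
  · intro w
    rw [Dbl_j2, j1_dd]
    show j2 (dd * w * dd⁻¹) = j2 dd * j2 w * (j2 dd)⁻¹
    simp only [map_mul, map_inv]

/-- The normal subgroup of inner automorphisms of `P4`, as in the statement. -/
abbrev Inn4 : Subgroup (MulAut P4) :=
  Subgroup.normalClosure (Set.range (fun x : P4 => MulAut.conj x))

/-- The outer automorphism group of `P4`. -/
abbrev Out4 := MulAut P4 ⧸ Inn4

theorem mem_Inn4 {φ : MulAut P4} (h : φ ∈ Inn4) : ∃ w : P4, φ = MulAut.conj w := by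
  haveI : (MulAut.conj : P4 →* MulAut P4).range.Normal := by
    refine ⟨?_⟩
    rintro _ ⟨x, rfl⟩ g
    refine ⟨g x, ?_⟩
    ext y
    show g x * y * (g x)⁻¹ = g (x * g⁻¹ y * x⁻¹)
    rw [map_mul, map_mul, map_inv]
    congr 2
    exact (MulEquiv.apply_symm_apply g y).symm
  have h1 : Inn4 ≤ (MulAut.conj : P4 →* MulAut P4).range := by
    apply Subgroup.normalClosure_le_normal
    rintro _ ⟨x, rfl⟩
    exact ⟨x, rfl⟩
  obtain ⟨w, hw⟩ := h1 h
  exact ⟨w, hw.symm⟩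

/-- `Stab → Out4`. -/
def Om : Stab →* Out4 := (QuotientGroup.mk' Inn4).comp Dbl

theorem Om_sD : Om sD = 1 := by
  show (QuotientGroup.mk' Inn4) (Dbl sD) = 1
  rw [Dbl_sD]
  exact (QuotientGroup.eq_one_iff _).2 (Subgroup.subset_normalClosure ⟨_, rfl⟩)

end Pool.Agent.helper22.MCG
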