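import Pool.Agent.helper22.MCG.Surf

/-!
The injective homomorphism `fS : P4 →* G1`.
-/

set_option autoImplicit false
set_option linter.unusedSimpArgs false

namespace Pool.Agent.helper22.MCG

open HNNExtension

theorem ev_E1 : ev E1 = gp⁻¹ * gm * gm * gp := by
  simp only [E1, map_mul, map_inv, ev_X1, ev_Y1, ev_X2, ev_Y2, ev_D1, ev_D2, ev_E2, gm]
  group

theorem et_E1 : et E1 = z1 := by
  simp only [E1, map_mul, map_inv, et_X1, et_Y1, et_X2, et_Y2, et_D1, et_D2, et_E2]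
  decide

/-- First stable element. -/
noncomputable def S1 : G1 := vv (gp⁻¹, 1) * xx
/-- Second stable element. -/
noncomputable def S2 : G1 := xx * vv (gp, 1)

theorem fV_D1 : fV D1 = (gc ^ (1 : ℤ), Multiplicative.ofAdd 1) := by
  simp [fV]

theorem fV_D2 : fV D2 = (gp, 1)⁻¹ * (gc ^ (2 : ℤ), Multiplicative.ofAdd (-1)) * (gp, 1) := by
  simp [fV, pow_two, mul_assoc]

theorem fV_E1 : fV E1 = (gp⁻¹, 1) * (gm ^ ((1 : ℤ) + 1), Multiplicative.ofAdd 1) * (gp⁻¹, 1)⁻¹ := by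
  have h : fV E1 = (ev E1, et E1) := rfl
  rw [h, ev_E1, et_E1]
  simp only [Prod.mk_mul_mk, Prod.inv_mk, Prod.mk.injEq]
  constructor
  · rw [zpow_add, zpow_one]; simp only [inv_inv, mul_assoc]
  · simp

theorem fV_E2 : fV E2 = (gm ^ ((2 : ℤ) + -1), Multiplicative.ofAdd (-1)) := by
  have h : fV E2 = (ev E2, et E2) := rfl
  rw [h, ev_E2, et_E2]
  norm_num

theorem S1_conj : S1 * vv (fV D1) * S1⁻¹ = vv (fV E1) := by
  rw [fV_D1, fV_E1, S1]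
  simp only [map_mul, map_inv]
  rw [← xx_conj]
  simp only [mul_inv_rev, mul_assoc]

theorem S2_conj : S2 * vv (fV D2) * S2⁻¹ = vv (fV E2) := by
  rw [fV_D2, fV_E2, S2]
  rw [← xx_conj]
  simp only [map_mul, map_inv, mul_inv_rev, mul_assoc, mul_inv_cancel_left]

theorem S1_conj_inv : S1 * (vv (fV D1))⁻¹ * S1⁻¹ = (vv (fV E1))⁻¹ := by
  rw [← S1_conj]; group

/-- Values of `fS` on generators. -/
noncomputable def uS : Fin 4 × Fin 2 → G1 := fun ij =>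
  (![![vv (fV X1), vv (fV Y1)], ![vv (fV X2), vv (fV Y2)],
    ![vv (fV D2) * S1 * (vv (fV D2))⁻¹, vv (fV D2) * (vv (fV D1))⁻¹ * (vv (fV D2))⁻¹],
    ![vv (fV D2), S2]] : Fin 4 → Fin 2 → G1) ij.1 ij.2

theorem uS_rel : (uS (0, 0) * uS (0, 1) * (uS (0, 0))⁻¹ * (uS (0, 1))⁻¹) *
      (uS (1, 0) * uS (1, 1) * (uS (1, 0))⁻¹ * (uS (1, 1))⁻¹) *
      (uS (2, 0) * uS (2, 1) * (uS (2, 0))⁻¹ * (uS (2, 1))⁻¹) *
      (uS (3, 0) * uS (3, 1) * (uS (3, 0))⁻¹ * (uS (3, 1))⁻¹) = 1 := by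
  have h2 : uS (2, 0) * uS (2, 1) * (uS (2, 0))⁻¹ * (uS (2, 1))⁻¹ =
      vv (fV (D2 * E1⁻¹ * D1 * D2⁻¹)) := by
    have : uS (2, 0) * uS (2, 1) * (uS (2, 0))⁻¹ * (uS (2, 1))⁻¹ =
      vv (fV D2) * (S1 * (vv (fV D1))⁻¹ * S1⁻¹) * vv (fV D1) * (vv (fV D2))⁻¹ := by
      simp [uS, mul_assoc]
    rw [this, S1_conj_inv]
    simp only [map_mul, map_inv]
  have h3 : uS (3, 0) * uS (3, 1) * (uS (3, 0))⁻¹ * (uS (3, 1))⁻¹ = vv (fV (D2 * E2⁻¹)) := by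
    have : uS (3, 0) * uS (3, 1) * (uS (3, 0))⁻¹ * (uS (3, 1))⁻¹ =
      vv (fV D2) * (S2 * vv (fV D2) * S2⁻¹)⁻¹ := by
      simp [uS, mul_assoc]
    rw [this, S2_conj]
    simp only [map_mul, map_inv]
  have h0 : uS (0, 0) * uS (0, 1) * (uS (0, 0))⁻¹ * (uS (0, 1))⁻¹ =
      vv (fV (X1 * Y1 * X1⁻¹ * Y1⁻¹)) := by
    simp [uS]
  have h1 : uS (1, 0) * uS (1, 1) * (uS (1, 0))⁻¹ * (uS (1, 1))⁻¹ =
      vv (fV (X2 * Y2 * X2⁻¹ * Y2⁻¹)) := by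
    simp [uS]
  rw [h0, h1, h2, h3, ← map_mul, ← map_mul, ← map_mul, ← map_mul, ← map_mul, ← map_mul]
  have : X1 * Y1 * X1⁻¹ * Y1⁻¹ * (X2 * Y2 * X2⁻¹ * Y2⁻¹) * (D2 * E1⁻¹ * D1 * D2⁻¹) *
      (D2 * E2⁻¹) = 1 := by
    simp only [E1]; group
  rw [this]; simp

/-- The homomorphism from the genus `4` surface group to `G1`. -/
noncomputable def fS : P4 →* G1 := liftP4 uS uS_rel

/-- `F7 → P4`. -/
def ιS : F7 →* P4 := FreeGroup.lift ![pg 0 0, pg 0 1, pg 1 0, pg 1 1,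
  (pg 3 0)⁻¹ * (pg 2 1)⁻¹ * pg 3 0, pg 3 0, pg 3 1 * pg 3 0 * (pg 3 1)⁻¹]

/-- The two stable elements in `P4`. -/
def sS : Fin 2 → P4 := ![(pg 3 0)⁻¹ * pg 2 0 * pg 3 0, pg 3 1]

theorem fS_ι (h : F7) : fS (ιS h) = vv (fV h) := by
  have : fS.comp ιS = vv.comp fV := by
    ext i
    fin_cases i
    · simp [ιS, fS, uS]
    · simp [ιS, fS, uS]
    · simp [ιS, fS, uS]
    · simp [ιS, fS, uS]
    · simp [ιS, fS, uS, mul_assoc]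
    · simp [ιS, fS, uS]
    · simp only [MonoidHom.comp_apply, ιS, FreeGroup.lift_apply_of]
      show fS (pg 3 1 * pg 3 0 * (pg 3 1)⁻¹) = vv (fV E2)
      rw [← S2_conj]
      simp [fS, uS]
  exact DFunLike.congr_fun this h

/-- left parts -/
def lS : Fin 2 → V := ![(gp⁻¹, 1), 1]
/-- right parts -/
def rS : Fin 2 → V := ![1, (gp, 1)]

theorem fS_s (j : Fin 2) : fS (sS j) = vv (lS j) * xx * vv (rS j) := by
  fin_cases j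
  · simp [sS, fS, uS, lS, rS, S1, mul_assoc]
  · simp [sS, fS, uS, lS, rS, S2, mul_assoc]

theorem ιS_D1 : ιS D1 = (pg 3 0)⁻¹ * (pg 2 1)⁻¹ * pg 3 0 := by simp [ιS]
theorem ιS_D2 : ιS D2 = pg 3 0 := by simp [ιS]
theorem ιS_E2 : ιS E2 = pg 3 1 * pg 3 0 * (pg 3 1)⁻¹ := by simp [ιS]
theorem ιS_X1 : ιS X1 = pg 0 0 := by simp [ιS]
theorem ιS_Y1 : ιS Y1 = pg 0 1 := by simp [ιS]
theorem ιS_X2 : ιS X2 = pg 1 0 := by simp [ιS]
theorem ιS_Y2 : ιS Y2 = pg 1 1 := by simp [ιS]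

theorem gen_S : Subgroup.closure (Set.range ιS ∪ Set.range sS) = ⊤ := by
  rw [eq_top_iff, ← PresentedGroup.closure_range_of, Subgroup.closure_le]
  have hι : ∀ h, ιS h ∈ Subgroup.closure (Set.range ιS ∪ Set.range sS) :=
    fun h => Subgroup.subset_closure (Or.inl ⟨h, rfl⟩)
  have hs : ∀ j, sS j ∈ Subgroup.closure (Set.range ιS ∪ Set.range sS) :=
    fun h => Subgroup.subset_closure (Or.inr ⟨h, rfl⟩)
  rintro _ ⟨⟨i, j⟩, rfl⟩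
  rw [SetLike.mem_coe]
  have h30 := hι D2
  rw [ιS_D2] at h30
  fin_cases i <;> fin_cases j
  · have := hι X1; rwa [ιS_X1] at this
  · have := hι Y1; rwa [ιS_Y1] at this
  · have := hι X2; rwa [ιS_X2] at this
  · have := hι Y2; rwa [ιS_Y2] at this
  · have := mul_mem (mul_mem h30 (hs 0)) (inv_mem h30)
    have e : pg 3 0 * sS 0 * (pg 3 0)⁻¹ = pg 2 0 := by simp [sS, mul_assoc]
    rwa [e] at this
  · have h1 := hι D1
    have := mul_mem (mul_mem h30 (inv_mem h1)) (inv_mem h30)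
    have e : pg 3 0 * (ιS D1)⁻¹ * (pg 3 0)⁻¹ = pg 2 1 := by rw [ιS_D1]; simp [mul_assoc]
    rwa [e] at this
  · exact h30
  · exact hs 1

theorem s0_conj : sS 0 * ιS D1 * (sS 0)⁻¹ = ιS E1 := by
  have hE : ιS E1 = ιS D1 * (ιS E2)⁻¹ * (pg 0 0 * pg 0 1 * (pg 0 0)⁻¹ * (pg 0 1)⁻¹ *
    (pg 1 0 * pg 1 1 * (pg 1 0)⁻¹ * (pg 1 1)⁻¹)) * ιS D2 := by
    simp only [E1, map_mul, map_inv, ιS_X1, ιS_Y1, ιS_X2, ιS_Y2]
  have hC : pg 0 0 * pg 0 1 * (pg 0 0)⁻¹ * (pg 0 1)⁻¹ *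
    (pg 1 0 * pg 1 1 * (pg 1 0)⁻¹ * (pg 1 1)⁻¹) = ((pg 2 0 * pg 2 1 * (pg 2 0)⁻¹ * (pg 2 1)⁻¹) *
      (pg 3 0 * pg 3 1 * (pg 3 0)⁻¹ * (pg 3 1)⁻¹))⁻¹ := by
    rw [eq_inv_iff_mul_eq_one, ← mul_assoc]
    exact P4_rel
  rw [hE, hC, ιS_D1, ιS_E2, ιS_D2]
  simp only [sS, Matrix.cons_val_zero]
  group

theorem s1_conj : sS 1 * ιS D2 * (sS 1)⁻¹ = ιS E2 := by
  rw [ιS_D2, ιS_E2]
  simp [sS]

end Pool.Agent.helper22.MCG
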