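import Mathlib

/-!
General facts about HNN extensions obtained from Britton's Lemma:
* `exists_reducedWord`: every element is the product of a reduced word;
* `mem_range_of_conj`: an element which conjugates a vertex element `y` (none of whose
  conjugates lies in an edge group) into the vertex group lies in the vertex group;
* `mem_range_iota`: a criterion describing a subgroup given by a map from a group `P`
  into an HNN extension.
-/

set_option autoImplicit false

namespace Pool.Agent.helper22.MCG

open HNNExtension HNNExtension.NormalWord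

variable {G : Type*} [Group G] {A B : Subgroup G} {φ : A ≃* B}

theorem exists_reducedWord (x : HNNExtension G A B φ) :
    ∃ w : ReducedWord G A B, w.prod φ = x := by
  rcases TransversalPair.nonempty G A B with ⟨d⟩
  exact ⟨((equiv φ d) x).toReducedWord, (equiv φ d).symm_apply_apply x⟩

/-- Append an element of the vertex group on the right of a nonempty list. -/
def mulLast (y : G) : List (ℤˣ × G) → List (ℤˣ × G)
  | [] => []
  | [a] => [(a.1, a.2 * y)]
  | a :: b :: l => a :: mulLast y (b :: l)

theorem mulLast_head?_fst (y : G) (l : List (ℤˣ × G)) :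
    (mulLast y l).head?.map Prod.fst = l.head?.map Prod.fst := by
  match l with
  | [] => rfl
  | [a] => rfl
  | a :: b :: l => rfl

theorem mulLast_prod (y : G) (l : List (ℤˣ × G)) (hl : l ≠ []) :
    ((mulLast y l).map (fun x => (t : HNNExtension G A B φ) ^ (x.1 : ℤ) * of x.2)).prod =
      (l.map (fun x => (t : HNNExtension G A B φ) ^ (x.1 : ℤ) * of x.2)).prod * of y := by
  match l with
  | [] => exact absurd rfl hl
  | [a] => simp [mulLast, mul_assoc]
  | a :: b :: l =>
    have ih := mulLast_prod y (b :: l) (by simp)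
    simp only [mulLast, List.map_cons, List.prod_cons] at ih ⊢
    rw [ih]
    simp [mul_assoc]

theorem mulLast_chain (y : G) (l : List (ℤˣ × G))
    (hl : l.IsChain (fun a b => a.2 ∈ toSubgroup A B a.1 → a.1 = b.1)) :
    (mulLast y l).IsChain (fun a b => a.2 ∈ toSubgroup A B a.1 → a.1 = b.1) := by
  match l with
  | [] => exact List.isChain_nil
  | [a] => exact List.isChain_singleton _
  | [a, b] =>
    simp only [mulLast]
    rw [List.isChain_cons_cons] at hl ⊢
    exact ⟨hl.1, List.isChain_singleton _⟩
  | a :: b :: c :: l =>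
    have h2 := (List.isChain_cons_cons.1 hl)
    have ih := mulLast_chain y (b :: c :: l) h2.2
    simp only [mulLast] at ih ⊢
    exact List.isChain_cons_cons.2 ⟨h2.1, ih⟩

/-- If `x` conjugates `of y` into the vertex group and no conjugate of `y` in `G` lies in an
edge group, then `x` is in the vertex group. -/
theorem mem_range_of_conj {y : G} (hA : ∀ g : G, g⁻¹ * y * g ∉ A) (hB : ∀ g : G, g⁻¹ * y * g ∉ B)
    {x : HNNExtension G A B φ}
    (hx : x * of y * x⁻¹ ∈ (of : G →* HNNExtension G A B φ).range) :
    x ∈ (of : G →* HNNExtension G A B φ).range := by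
  obtain ⟨z, hz⟩ := hx
  obtain ⟨w, hw⟩ := exists_reducedWord (φ := φ) x⁻¹
  -- x⁻¹ * of z = of y * x⁻¹
  have key : x⁻¹ * of z = of y * x⁻¹ := by
    rw [hz]; group
  rcases hl : w.toList with _ | ⟨a, l⟩
  · have : x⁻¹ = of w.head := by
      rw [← hw]; simp [ReducedWord.prod, hl]
    rw [← inv_inv x, this]
    exact inv_mem ⟨_, rfl⟩
  · exfalso
    let w₁ : ReducedWord G A B := ⟨y * w.head, w.toList, w.chain⟩
    let w₂ : ReducedWord G A B := ⟨w.head, mulLast z w.toList, mulLast_chain z _ w.chain⟩
    have h1 : w₁.prod φ = of y * x⁻¹ := by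
      rw [← hw]; simp [w₁, ReducedWord.prod, mul_assoc]
    have h2 : w₂.prod φ = x⁻¹ * of z := by
      rw [← hw]
      simp only [w₂, ReducedWord.prod]
      rw [mulLast_prod z w.toList (by simp [hl])]
      simp [mul_assoc]
    have h3 := (ReducedWord.map_fst_eq_and_of_prod_eq φ (w₁ := w₁) (w₂ := w₂)
      (by rw [h1, h2, key])).2 a.1 (by simp [w₁, hl])
    have h4 : w.head⁻¹ * y * w.head ∈ toSubgroup A B (-a.1) := by
      have : w₁.head⁻¹ * w₂.head = (w.head⁻¹ * y * w.head)⁻¹ := by
        simp only [w₁, w₂]; group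
      rw [this] at h3
      exact (inv_mem_iff).1 h3
    rcases Int.units_eq_one_or a.1 with h | h
    · rw [h, toSubgroup_neg_one] at h4
      exact hB _ h4
    · rw [h, neg_neg, toSubgroup_one] at h4
      exact hA _ h4

/-- In `G * ⟨z⟩` (HNN extension over trivial subgroups): if `w` and `z⁻¹ w z` are both in `G`,
then `w = 1`. -/
theorem eq_one_of_conj_t {φ : (⊥ : Subgroup G) ≃* (⊥ : Subgroup G)} {g u : G}
    (h : (t : HNNExtension G ⊥ ⊥ φ)⁻¹ * of g * t = of u) : g = 1 := by
  by_contra hg
  let w : ReducedWord G (⊥ : Subgroup G) (⊥ : Subgroup G) :=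
    ⟨1, [(-1, g), (1, 1)], by
      refine List.isChain_cons_cons.2 ⟨?_, List.isChain_singleton _⟩
      intro h
      exact absurd (by simpa using h) hg⟩
  have hw : w.prod φ = of u := by
    rw [← h]; simp [w, ReducedWord.prod, mul_assoc]
  have := ReducedWord.toList_eq_nil_of_mem_of_range φ w ⟨u, hw.symm⟩
  simp [w] at this

section Sub

variable {P F : Type*} [Group P] [Group F] {J : Type*}

/-- Evaluation of a word in `s_j^{±1}` and elements of `F` in the group `P`. -/
def evP (ι : F →* P) (s : J → P) : List (J × ℤˣ × F) → P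
  | [] => 1
  | a :: L => s a.1 ^ (a.2.1 : ℤ) * ι a.2.2 * evP ι s L

/-- The element of the vertex group to the left of `t^ε` in `f (s_j^ε)`. -/
def lft (l r : J → G) (j : J) (ε : ℤˣ) : G := if ε = 1 then l j else (r j)⁻¹

/-- The element of the vertex group to the right of `t^ε` in `f (s_j^ε)`. -/
def rgt (l r : J → G) (j : J) (ε : ℤˣ) : G := if ε = 1 then r j else (l j)⁻¹

/-- Translation of a word to a pair (head, list) for the HNN extension. -/
def trans (fV : F →* G) (l r : J → G) : List (J × ℤˣ × F) → G × List (ℤˣ × G)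
  | [] => (1, [])
  | a :: L => (lft l r a.1 a.2.1,
      (a.2.1, rgt l r a.1 a.2.1 * fV a.2.2 * (trans fV l r L).1) :: (trans fV l r L).2)

theorem trans_length (fV : F →* G) (l r : J → G) (L : List (J × ℤˣ × F)) :
    (trans fV l r L).2.length = L.length := by
  induction L with
  | nil => rfl
  | cons a L ih => simp [trans, ih]

variable {f : P →* HNNExtension G A B φ} {ι : F →* P} {fV : F →* G} {s : J → P} {l r : J → G}

theorem map_s_pow (hs : ∀ j, f (s j) = of (l j) * t * of (r j)) (j : J) (ε : ℤˣ) :
    f (s j ^ (ε : ℤ)) = of (lft l r j ε) * t ^ (ε : ℤ) * of (rgt l r j ε) := by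
  rcases Int.units_eq_one_or ε with rfl | rfl
  · simp [lft, rgt, hs]
  · simp [lft, rgt, hs, mul_assoc]

theorem map_evP (hι : ∀ h, f (ι h) = of (fV h)) (hs : ∀ j, f (s j) = of (l j) * t * of (r j))
    (L : List (J × ℤˣ × F)) :
    f (evP ι s L) = of (trans fV l r L).1 *
      ((trans fV l r L).2.map (fun x => (t : HNNExtension G A B φ) ^ (x.1 : ℤ) * of x.2)).prod := by
  induction L with
  | nil => simp [evP, trans]
  | cons a L ih =>
    simp only [evP, trans, map_mul, List.map_cons, List.prod_cons]
    rw [ih, map_s_pow hs, hι]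
    simp only [mul_assoc]

/-- Either the translated word is reduced or the word can be shortened. -/
theorem chain_or_short
    (hpA : ∀ j k h, r j * fV h * (r k)⁻¹ ∈ A → ∃ h', s j * ι h * (s k)⁻¹ = ι h')
    (hpB : ∀ j k h, (l j)⁻¹ * fV h * l k ∈ B → ∃ h', (s j)⁻¹ * ι h * s k = ι h')
    (L : List (J × ℤˣ × F)) :
    (trans fV l r L).2.IsChain (fun a b => a.2 ∈ toSubgroup A B a.1 → a.1 = b.1) ∨
      ∃ (h₀ : F) (L' : List (J × ℤˣ × F)), L'.length < L.length ∧
        evP ι s L = ι h₀ * evP ι s L' := by
  induction L with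
  | nil => left; exact List.isChain_nil
  | cons a L ih =>
    rcases ih with hc | ⟨h₀, L', hlt, he⟩
    · rcases L with _ | ⟨b, L⟩
      · left
        simp only [trans]
        exact List.isChain_singleton _
      · by_cases hcond : (rgt l r a.1 a.2.1 * fV a.2.2 * (trans fV l r (b :: L)).1 ∈
          toSubgroup A B a.2.1 → a.2.1 = b.2.1)
        · left
          rw [trans]
          simp only [trans] at hc hcond ⊢
          exact List.isChain_cons_cons.2 ⟨hcond, hc⟩
        · right
          push Not at hcond
          obtain ⟨hmem, hne⟩ := hcond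
          obtain ⟨j, ε, h⟩ := a
          obtain ⟨k, δ, h'⟩ := b
          simp only [trans] at hmem hne
          have : ∃ h'', s j ^ (ε : ℤ) * ι h * s k ^ (δ : ℤ) = ι h'' := by
            rcases Int.units_eq_one_or ε with rfl | rfl
            · rcases Int.units_eq_one_or δ with rfl | rfl
              · exact absurd rfl hne
              · simp only [rgt, lft, toSubgroup_one, if_true] at hmem
                rw [if_neg (by decide)] at hmem
                obtain ⟨h'', e⟩ := hpA j k h hmem
                exact ⟨h'', by simpa using e⟩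
            · rcases Int.units_eq_one_or δ with rfl | rfl
              · simp only [rgt, lft, toSubgroup_neg_one, if_true] at hmem
                rw [if_neg (by decide)] at hmem
                obtain ⟨h'', e⟩ := hpB j k h hmem
                exact ⟨h'', by simpa using e⟩
              · exact absurd rfl hne
          obtain ⟨h'', e⟩ := this
          refine ⟨h'' * h', L, by simp, ?_⟩
          simp only [evP]
          rw [map_mul, ← e]
          simp only [mul_assoc]
    · right
      refine ⟨1, (a.1, a.2.1, a.2.2 * h₀) :: L', by simpa using hlt, ?_⟩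
      simp only [evP, map_one, one_mul, map_mul]
      rw [he]
      simp only [mul_assoc]

theorem exists_evP (hgen : Subgroup.closure (Set.range ι ∪ Set.range s) = ⊤) (x : P) :
    ∃ (h₀ : F) (L : List (J × ℤˣ × F)), x = ι h₀ * evP ι s L := by
  have hx : x ∈ Subgroup.closure (Set.range ι ∪ Set.range s) := by rw [hgen]; trivial
  induction hx using Subgroup.closure_induction_left with
  | one => exact ⟨1, [], by simp [evP]⟩
  | mul_left a ha y _ ih =>
    obtain ⟨h₀, L, rfl⟩ := ih
    rcases ha with ⟨h, rfl⟩ | ⟨j, rfl⟩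
    · exact ⟨h * h₀, L, by simp [mul_assoc]⟩
    · exact ⟨1, (j, 1, h₀) :: L, by simp [evP, mul_assoc]⟩
  | inv_mul_cancel a ha y _ ih =>
    obtain ⟨h₀, L, rfl⟩ := ih
    rcases ha with ⟨h, rfl⟩ | ⟨j, rfl⟩
    · exact ⟨h⁻¹ * h₀, L, by simp [mul_assoc]⟩
    · exact ⟨1, (j, -1, h₀) :: L, by simp [evP, mul_assoc]⟩

/-- Main criterion: elements of `P` mapped into the vertex group come from `F`. -/
theorem mem_range_iota
    (hι : ∀ h, f (ι h) = of (fV h)) (hs : ∀ j, f (s j) = of (l j) * t * of (r j))
    (hgen : Subgroup.closure (Set.range ι ∪ Set.range s) = ⊤)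
    (hpA : ∀ j k h, r j * fV h * (r k)⁻¹ ∈ A → ∃ h', s j * ι h * (s k)⁻¹ = ι h')
    (hpB : ∀ j k h, (l j)⁻¹ * fV h * l k ∈ B → ∃ h', (s j)⁻¹ * ι h * s k = ι h')
    {x : P} (hx : f x ∈ (of : G →* HNNExtension G A B φ).range) :
    ∃ h, x = ι h := by
  obtain ⟨h₀, L, hL⟩ := exists_evP hgen x
  induction hn : L.length using Nat.strong_induction_on generalizing L h₀ with
  | _ n ih =>
    rcases chain_or_short (B := B) hpA hpB L with hc | ⟨h₁, L', hlt, he⟩
    · let w : ReducedWord G A B := ⟨fV h₀ * (trans fV l r L).1, (trans fV l r L).2, hc⟩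
      have hw : w.prod φ = f x := by
        rw [hL, map_mul, hι, map_evP hι hs]
        simp [w, ReducedWord.prod, mul_assoc]
      have h0 := ReducedWord.toList_eq_nil_of_mem_of_range φ w (by rw [hw]; exact hx)
      have hlen : L.length = 0 := by
        rw [← trans_length fV l r L]
        simpa [w] using h0
      have : L = [] := List.length_eq_zero_iff.1 hlen
      subst this
      exact ⟨h₀, by rw [hL]; simp [evP]⟩
    · exact ih L'.length (by omega) (h₀ * h₁) L' (by rw [hL, he, map_mul, mul_assoc]) rfl

end Sub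

end Pool.Agent.helper22.MCG
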