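import Pool.Agent.helper22.MCG.Emb

/-!
Injectivity of `fS : P4 →* G1`, and `t ^ 3 ∉ fS.range`.
-/

set_option autoImplicit false
set_option linter.unusedSimpArgs false

namespace Pool.Agent.helper22.MCG

open HNNExtension

theorem mem_ea {v : V} (h : v ∈ ea.range) : ∃ i : ℤ, v.1 = gc ^ i := by
  obtain ⟨⟨i, j⟩, rfl⟩ := h
  exact ⟨Multiplicative.toAdd i, congrArg Prod.fst
    (ea_apply (Multiplicative.toAdd i) (Multiplicative.toAdd j))⟩

theorem mem_eb {v : V} (h : v ∈ eb.range) : ∃ i : ℤ, v.1 = gm ^ i := by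
  obtain ⟨⟨i, j⟩, rfl⟩ := h
  exact ⟨Multiplicative.toAdd i + Multiplicative.toAdd j, congrArg Prod.fst
    (eb_apply (Multiplicative.toAdd i) (Multiplicative.toAdd j))⟩

theorem fV_fst (h : F7) : (fV h).1 = ev h := rfl

/-- case `11` -/
theorem case_c0 {h : F7} {i : ℤ} (e : ev h = gc ^ i) : h = D1 ^ i := by
  apply ev_eq_of_act
  rw [e, act_gc_zpow0]; simp

theorem case_m0 {h : F7} {i : ℤ} (e : ev h = gm ^ i) : h = E2 ^ i := by
  apply ev_eq_of_act
  rw [e, act_gm_zpow0]; simp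

theorem case_c1 {h : F7} {i : ℤ} (e : gp * ev h * gp⁻¹ = gc ^ i) : ∃ n : ℤ, h = D2 ^ n := by
  have e' : ev h = gp⁻¹ * gc ^ i * gp := by rw [← e]; group
  rcases Int.even_or_odd' i with ⟨n, rfl | rfl⟩
  · refine ⟨n, ev_eq_of_act ?_⟩
    rw [e', map_mul, map_mul, map_inv, Equiv.Perm.mul_apply, Equiv.Perm.mul_apply, act_p0,
      act_gc_zpow_even, act_pi1]
    simp
  · exfalso
    have h1 := act_ev h 1
    obtain ⟨u', hu'⟩ := act_gc_zpow_odd n 1
    rw [e', map_mul, map_mul, map_inv, Equiv.Perm.mul_apply, Equiv.Perm.mul_apply, act_p0, hu',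
      act_pi2] at h1
    simp at h1

theorem case_m1 {h : F7} {i : ℤ} (e : gp * ev h * gp⁻¹ = gm ^ i) : ∃ n : ℤ, h = E1 ^ n := by
  have e' : ev h = gp⁻¹ * gm ^ i * gp := by rw [← e]; simp only [mul_assoc, inv_mul_cancel_left,
    inv_mul_cancel, mul_one]
  rcases Int.even_or_odd' i with ⟨n, rfl | rfl⟩
  · refine ⟨n, ev_eq_of_act ?_⟩
    rw [e', map_mul, map_mul, map_inv, Equiv.Perm.mul_apply, Equiv.Perm.mul_apply, act_p0,
      act_gm_zpow_even, act_pi1]
    simp
  · exfalso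
    have h1 := act_ev h 1
    obtain ⟨u', hu'⟩ := act_gm_zpow_odd n 1
    rw [e', map_mul, map_mul, map_inv, Equiv.Perm.mul_apply, Equiv.Perm.mul_apply, act_p0, hu',
      act_pi2] at h1
    simp at h1

theorem case_c01 {h : F7} {i : ℤ} (e : ev h = gc ^ i * gp) : False := by
  have h1 := act_ev h 1
  rcases Int.even_or_odd' i with ⟨n, rfl | rfl⟩
  · rw [e, map_mul, Equiv.Perm.mul_apply, act_p0, act_gc_zpow_even] at h1
    simp at h1
  · obtain ⟨u', hu'⟩ := act_gc_zpow_odd n 1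
    rw [e, map_mul, Equiv.Perm.mul_apply, act_p0, hu'] at h1
    simp at h1

theorem case_c10 {h : F7} {i : ℤ} (e : gp * ev h = gc ^ i) : False := by
  have h1 := act_gc_zpow0 i 1
  rw [← e, map_mul, Equiv.Perm.mul_apply, act_ev, act_p0] at h1
  simp at h1

theorem case_m01 {h : F7} {i : ℤ} (e : ev h = gm ^ i * gp) : False := by
  have h1 := act_ev h 1
  rcases Int.even_or_odd' i with ⟨n, rfl | rfl⟩
  · rw [e, map_mul, Equiv.Perm.mul_apply, act_p0, act_gm_zpow_even] at h1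
    simp at h1
  · obtain ⟨u', hu'⟩ := act_gm_zpow_odd n 1
    rw [e, map_mul, Equiv.Perm.mul_apply, act_p0, hu'] at h1
    simp at h1

theorem case_m10 {h : F7} {i : ℤ} (e : gp * ev h = gm ^ i) : False := by
  have h1 := act_gm_zpow0 i 1
  rw [← e, map_mul, Equiv.Perm.mul_apply, act_ev, act_p0] at h1
  simp at h1

theorem conj_zpow' {P : Type*} [Group P] (s a b : P) (h : s * a * s⁻¹ = b) (n : ℤ) :
    s * a ^ n * s⁻¹ = b ^ n := by
  rw [← h, conj_zpow]

theorem conj_zpow_inv' {P : Type*} [Group P] (s a b : P) (h : s * a * s⁻¹ = b) (n : ℤ) :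
    s⁻¹ * b ^ n * s = a ^ n := by
  rw [← h, conj_zpow]; group

theorem hpA (j k : Fin 2) (h : F7) (hm : rS j * fV h * (rS k)⁻¹ ∈ ea.range) :
    ∃ h', sS j * ιS h * (sS k)⁻¹ = ιS h' := by
  obtain ⟨i, hi⟩ := mem_ea hm
  fin_cases j <;> fin_cases k
  · simp [rS, fV_fst] at hi
    have := case_c0 hi
    subst this
    refine ⟨E1 ^ i, ?_⟩
    rw [map_zpow, map_zpow]
    exact conj_zpow' _ _ _ s0_conj i
  · simp [rS, fV_fst] at hi
    exact (case_c01 (mul_inv_eq_iff_eq_mul.1 hi)).elim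
  · simp [rS, fV_fst] at hi
    exact (case_c10 hi).elim
  · simp [rS, fV_fst] at hi
    obtain ⟨n, hn⟩ := case_c1 hi
    subst hn
    refine ⟨E2 ^ n, ?_⟩
    rw [map_zpow, map_zpow]
    exact conj_zpow' _ _ _ s1_conj n

theorem hpB (j k : Fin 2) (h : F7) (hm : (lS j)⁻¹ * fV h * lS k ∈ eb.range) :
    ∃ h', (sS j)⁻¹ * ιS h * sS k = ιS h' := by
  obtain ⟨i, hi⟩ := mem_eb hm
  fin_cases j <;> fin_cases k
  · have hi' : gp * ev h * gp⁻¹ = gm ^ i := by rw [← hi]; simp [lS, fV_fst]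
    obtain ⟨n, hn⟩ := case_m1 hi'
    subst hn
    refine ⟨D1 ^ n, ?_⟩
    rw [map_zpow, map_zpow]
    exact conj_zpow_inv' _ _ _ s0_conj n
  · have hi' : gp * ev h = gm ^ i := by rw [← hi]; simp [lS, fV_fst]
    exact (case_m10 hi').elim
  · have hi' : ev h = gm ^ i * gp := by rw [← hi]; simp [lS, fV_fst]
    exact (case_m01 hi').elim
  · have hi' : ev h = gm ^ i := by rw [← hi]; simp [lS, fV_fst]
    have := case_m0 hi'
    subst this
    refine ⟨D2 ^ i, ?_⟩
    rw [map_zpow, map_zpow]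
    exact conj_zpow_inv' _ _ _ s1_conj i

theorem mem_range_ιS {x : P4} (hx : fS x ∈ (vv : V →* G1).range) : ∃ h, x = ιS h :=
  mem_range_iota fS_ι fS_s gen_S hpA hpB hx

theorem fS_injective : Function.Injective fS := by
  rw [injective_iff_map_eq_one]
  intro x hx
  obtain ⟨h, rfl⟩ := mem_range_ιS (x := x) (by rw [hx]; exact one_mem _)
  rw [fS_ι] at hx
  have h1 : fV h = 1 := of_injective eφ (by rw [hx, map_one])
  have h2 : ev h = 1 := congrArg Prod.fst h1
  have h3 : h = 1 := ev_injective (by rw [h2, map_one])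
  rw [h3, map_one]

/-- The central twist element. -/
noncomputable def tt : G1 := vv (1, z1)

theorem tt_pow (n : ℤ) : tt ^ n = vv (1, Multiplicative.ofAdd n) := by
  rw [tt, ← map_zpow]
  congr 1
  rw [← ofAdd_one_zpow]
  ext <;> simp

theorem tt_pow_not_mem {n : ℤ} (hn : n ≠ 0) : tt ^ n ∉ fS.range := by
  rintro ⟨x, hx⟩
  rw [tt_pow] at hx
  obtain ⟨h, rfl⟩ := mem_range_ιS (x := x) (by rw [hx]; exact ⟨_, rfl⟩)
  rw [fS_ι] at hx
  have h1 : fV h = (1, Multiplicative.ofAdd n) := of_injective eφ hx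
  have h2 : ev h = 1 := congrArg Prod.fst h1
  have h3 : h = 1 := ev_injective (by rw [h2, map_one])
  rw [h3, map_one] at h1
  have h4 : (1 : Z) = Multiplicative.ofAdd n := congrArg Prod.snd h1
  exact hn (congrArg Multiplicative.toAdd h4).symm

/-- The element of `F7` conjugating `D2`. -/
abbrev Wd : F7 := D1 * E2⁻¹ * X1 * Y1 * X1⁻¹ * Y1⁻¹ * X2 * Y2

/-- `y = p⁻¹ [p,q] c p`. -/
abbrev yy : F3 := gp⁻¹ * gm * gp

theorem fV_W : fV (Wd * D2 * Wd⁻¹) = (yy * gc * gc * yy⁻¹, Multiplicative.ofAdd (-1)) := by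
  have h : fV (Wd * D2 * Wd⁻¹) = (ev (Wd * D2 * Wd⁻¹), et (Wd * D2 * Wd⁻¹)) := rfl
  rw [h]
  refine Prod.ext ?_ ?_
  · simp only [Wd, map_mul, map_inv, ev_X1, ev_Y1, ev_X2, ev_Y2, ev_D1, ev_D2, ev_E2, gm, yy]
    group
  · simp only [Wd, map_mul, map_inv, et_X1, et_Y1, et_X2, et_Y2, et_D1, et_D2, et_E2]
    decide

/-- Non-separability: a subgroup of `G1` containing the surface subgroup and a positive power of
`t` contains `t ^ 3`. -/
theorem tt_cube_mem (K : Subgroup G1) (hK : fS.range ≤ K) (n : ℕ) (hn : 0 < n)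
    (ht : tt ^ (n : ℤ) ∈ K) : tt ^ (3 : ℤ) ∈ K := by
  induction n using Nat.strong_induction_on with
  | _ n ih =>
    have hH : ∀ h : F7, vv (fV h) ∈ K := fun h => hK ⟨ιS h, fS_ι h⟩
    have hS1 : S1 ∈ K := by
      have h := hK ⟨sS 0, rfl⟩
      rw [fS_s] at h
      simpa [S1, lS, rS] using h
    -- `y ^ n ∈ K`
    have hE : vv (yy * yy, z1) ∈ K := by
      have := hH E1
      have e : fV E1 = (yy * yy, z1) := by
        refine Prod.ext ?_ ?_
        · show ev E1 = _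
          rw [ev_E1]; simp only [yy, mul_assoc, mul_inv_cancel_left]
        · exact et_E1
      rwa [e] at this
    have hconj : ∀ m : ℤ, S1 * vv (1, Multiplicative.ofAdd m) * S1⁻¹ =
        vv (yy ^ m, Multiplicative.ofAdd m) := by
      intro m
      have h := xx_conj 0 m
      rw [zpow_zero, zero_add] at h
      have : S1 * vv (1, Multiplicative.ofAdd m) * S1⁻¹ =
          vv (gp⁻¹, 1) * (xx * vv (1, Multiplicative.ofAdd m) * xx⁻¹) * (vv (gp⁻¹, 1))⁻¹ := by
        simp only [S1, mul_inv_rev, mul_assoc]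
      rw [this, h, ← map_inv, ← map_mul, ← map_mul]
      congr 1
      refine Prod.ext ?_ ?_
      · show gp⁻¹ * gm ^ m * (gp⁻¹)⁻¹ = yy ^ m
        rw [← conj_zpow]; simp only [yy, inv_inv]
      · simp
    have hyn : vv (yy ^ (n : ℤ), 1) ∈ K := by
      have h1 := mul_mem (mul_mem hS1 ht) (inv_mem hS1)
      rw [tt_pow, hconj] at h1
      rw [tt_pow] at ht
      have h2 := mul_mem h1 (inv_mem ht)
      rw [← map_inv, ← map_mul] at h2
      have e : ((yy ^ (n : ℤ), Multiplicative.ofAdd (n : ℤ)) : V) *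
        (1, Multiplicative.ofAdd (n : ℤ))⁻¹ = (yy ^ (n : ℤ), 1) := by
        refine Prod.ext ?_ ?_ <;> simp
      rwa [e] at h2
    have hEk : ∀ k : ℤ, vv (yy ^ (2 * k), Multiplicative.ofAdd k) ∈ K := by
      intro k
      have h := zpow_mem hE k
      rw [← map_zpow] at h
      have e : ((yy * yy, z1) : V) ^ k = (yy ^ (2 * k), Multiplicative.ofAdd k) := by
        refine Prod.ext ?_ ?_
        · show (yy * yy) ^ k = yy ^ (2 * k)
          rw [zpow_mul, zpow_two]
        · show z1 ^ k = _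
          exact ofAdd_one_zpow k
      rwa [e] at h
    rcases Nat.even_or_odd' n with ⟨k, hk | hk⟩
    · have hk0 : 0 < k := by omega
      refine ih k (by omega) hk0 ?_
      rw [tt_pow]
      have h := mul_mem (inv_mem hyn) (hEk k)
      rw [← map_inv, ← map_mul] at h
      have e : ((yy ^ (n : ℤ), 1) : V)⁻¹ * (yy ^ (2 * (k : ℤ)), Multiplicative.ofAdd (k : ℤ)) =
          (1, Multiplicative.ofAdd (k : ℤ)) := by
        refine Prod.ext ?_ ?_
        · show (yy ^ (n : ℤ))⁻¹ * yy ^ (2 * (k : ℤ)) = 1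
          rw [hk]; push_cast; simp
        · show (1 : Z)⁻¹ * _ = _
          simp
      rwa [e] at h
    · -- `g = y t^{-k} ∈ K`
      have hg : vv (yy, Multiplicative.ofAdd (-(k : ℤ))) ∈ K := by
        have h := mul_mem hyn (inv_mem (hEk k))
        rw [← map_inv, ← map_mul] at h
        have e : ((yy ^ (n : ℤ), 1) : V) * (yy ^ (2 * (k : ℤ)), Multiplicative.ofAdd (k : ℤ))⁻¹ =
            (yy, Multiplicative.ofAdd (-(k : ℤ))) := by
          refine Prod.ext ?_ ?_
          · show yy ^ (n : ℤ) * (yy ^ (2 * (k : ℤ)))⁻¹ = yy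
            rw [hk]; push_cast; rw [add_comm, zpow_add, zpow_one]; simp
          · show (1 : Z) * (Multiplicative.ofAdd (k : ℤ))⁻¹ = _
            simp
        rwa [e] at h
      have hD : vv (gc, z1) ∈ K := by
        have := hH D1
        have e : fV D1 = (gc, z1) := by
          refine Prod.ext ev_D1 et_D1
        rwa [e] at this
      have h1 := mul_mem (mul_mem hg (mul_mem hD hD)) (inv_mem hg)
      have h2 := hH (Wd * D2 * Wd⁻¹)
      rw [fV_W] at h2
      have h3 := mul_mem h1 (inv_mem h2)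
      rw [tt_pow]
      rw [← map_mul, ← map_inv, ← map_mul, ← map_mul, ← map_inv, ← map_mul] at h3
      have e : ((yy, Multiplicative.ofAdd (-(k : ℤ))) : V) * ((gc, z1) * (gc, z1)) *
          (yy, Multiplicative.ofAdd (-(k : ℤ)))⁻¹ *
          (yy * gc * gc * yy⁻¹, Multiplicative.ofAdd (-1))⁻¹ = (1, Multiplicative.ofAdd 3) := by
        refine Prod.ext ?_ ?_
        · show yy * (gc * gc) * yy⁻¹ * (yy * gc * gc * yy⁻¹)⁻¹ = 1
          group
        · show Multiplicative.ofAdd (-(k : ℤ)) * (z1 * z1) *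
            (Multiplicative.ofAdd (-(k : ℤ)))⁻¹ * (Multiplicative.ofAdd (-1 : ℤ))⁻¹ = _
          apply Multiplicative.toAdd.injective
          simp only [toAdd_mul, toAdd_inv, toAdd_ofAdd]
          ring
      rwa [e] at h3

end Pool.Agent.helper22.MCG
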