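import Pool.Agent.helper22.MCG.Dbl

/-!
The injective homomorphism `Lam : G1 →* Out4`.
-/

set_option autoImplicit false
set_option linter.unusedSimpArgs false

namespace Pool.Agent.helper22.MCG

open HNNExtension HNNExtension.NormalWord

section
variable {G : Type*} [Group G] {A B : Subgroup G} {φ : A ≃* B}

theorem mem_A_of_conj {a : G}
    (h : (t : HNNExtension G A B φ) * of a * t⁻¹ ∈ (of : G →* HNNExtension G A B φ).range) :
    a ∈ A := by
  by_contra ha
  let w : ReducedWord G A B :=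
    ⟨1, [(1, a), (-1, 1)], by
      refine List.isChain_cons_cons.2 ⟨?_, List.isChain_singleton _⟩
      intro h
      exact absurd (by simpa using h) ha⟩
  have hw : w.prod φ = t * of a * t⁻¹ := by
    simp [w, ReducedWord.prod, mul_assoc]
  have := ReducedWord.toList_eq_nil_of_mem_of_range φ w (by rw [hw]; exact h)
  simp [w] at this

theorem mem_B_of_conj {b : G}
    (h : (t : HNNExtension G A B φ)⁻¹ * of b * t ∈ (of : G →* HNNExtension G A B φ).range) :
    b ∈ B := by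
  by_contra hb
  let w : ReducedWord G A B :=
    ⟨1, [(-1, b), (1, 1)], by
      refine List.isChain_cons_cons.2 ⟨?_, List.isChain_singleton _⟩
      intro h
      exact absurd (by simpa using h) hb⟩
  have hw : w.prod φ = t⁻¹ * of b * t := by
    simp [w, ReducedWord.prod, mul_assoc]
  have := ReducedWord.toList_eq_nil_of_mem_of_range φ w (by rw [hw]; exact h)
  simp [w] at this

end

/-- `F3 → Stab`. -/
def sF : F3 →* Stab := FreeGroup.lift ![sPp, sPq, sPc]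

@[simp] theorem sF_p : sF gp = sPp := by simp [sF]
@[simp] theorem sF_q : sF gq = sPq := by simp [sF]
@[simp] theorem sF_c : sF gc = sPc := by simp [sF]

theorem sF_comm (w : F3) : Commute (sF w) sT := by
  have : (sF w) ∈ Subgroup.centralizer {sT} := by
    induction w using FreeGroup.induction_on with
    | C1 => rw [map_one]; exact one_mem _
    | of i =>
      rw [Subgroup.mem_centralizer_singleton_iff]
      fin_cases i
      · show sF gp * sT = sT * sF gp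
        rw [sF_p]; exact comm_T_Pp.symm
      · show sF gq * sT = sT * sF gq
        rw [sF_q]; exact comm_T_Pq.symm
      · show sF gc * sT = sT * sF gc
        rw [sF_c]; exact comm_T_Pc.symm
    | inv_of i ih => rw [map_inv]; exact inv_mem ih
    | mul x y hx hy => rw [map_mul]; exact mul_mem hx hy
  exact Subgroup.mem_centralizer_singleton_iff.1 this

/-- `V → Stab`. -/
def sV : V →* Stab := MonoidHom.noncommCoprod sF (zpowersHom Stab sT)
  (fun m n => (sF_comm m).zpow_right _)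

theorem sV_apply (w : F3) (k : ℤ) : sV (w, Multiplicative.ofAdd k) = sF w * sT ^ k := rfl

theorem Om_e : Om sPx * Om sPc * (Om sPx)⁻¹ = Om (sF gm) := by
  rw [← map_mul, sPx_sPc]
  simp only [map_mul, map_inv, Om_sD, one_mul, gm, sF_p, sF_q, sF_c, mul_assoc, mul_inv_cancel,
    mul_one]

theorem Om_T : Om sPx * Om sT * (Om sPx)⁻¹ = Om (sF gm) * Om sT := by
  rw [← map_mul, sPx_sT]
  simp only [map_mul, map_inv, Om_sD, one_mul, gm, sF_p, sF_q, sF_c, mul_assoc, mul_inv_cancel,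
    mul_one]

theorem Om_cond (m : Z × Z) : Om sPx * (Om.comp sV) (ea m) = (Om.comp sV) (eb m) * Om sPx := by
  obtain ⟨i, j⟩ := m
  have h1 : ea (i, j) = _ := ea_apply (Multiplicative.toAdd i) (Multiplicative.toAdd j)
  have h2 : eb (i, j) = _ := eb_apply (Multiplicative.toAdd i) (Multiplicative.toAdd j)
  rw [h1, h2]
  generalize Multiplicative.toAdd i = i
  generalize Multiplicative.toAdd j = j
  rw [MonoidHom.comp_apply, MonoidHom.comp_apply, sV_apply, sV_apply]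
  rw [← mul_inv_eq_iff_eq_mul]
  have hl : Om (sF (gc ^ i) * sT ^ j) = Om sPc ^ i * Om sT ^ j := by
    rw [map_mul, map_zpow, map_zpow, map_zpow, sF_c]
  have hr : Om (sF (gm ^ (i + j)) * sT ^ j) = Om (sF gm) ^ (i + j) * Om sT ^ j := by
    rw [map_mul, map_zpow, map_zpow, map_zpow]
  rw [hl, hr]
  have hc : Commute (Om (sF gm)) (Om sT) := (sF_comm gm).map Om
  have e1 : Om sPx * (Om sPc ^ i * Om sT ^ j) * (Om sPx)⁻¹ =
      (Om sPx * Om sPc * (Om sPx)⁻¹) ^ i * (Om sPx * Om sT * (Om sPx)⁻¹) ^ j := by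
    rw [conj_zpow, conj_zpow]; group
  rw [e1, Om_e, Om_T, hc.mul_zpow, zpow_add]
  simp only [mul_assoc]

/-- The homomorphism `G1 → Out4`. -/
noncomputable def Lam : G1 →* Out4 :=
  HNNExtension.lift (Om.comp sV) (Om sPx) (lift_cond _ _ Om_cond)

theorem Lam_vv (v : V) : Lam (vv v) = Om (sV v) := HNNExtension.lift_of ..
theorem Lam_xx : Lam xx = Om sPx := HNNExtension.lift_t ..

/-- The quotient map `F4 → G1`. -/
noncomputable def QQ : F4 →* G1 := hm (vv (gp, 1)) (vv (gq, 1)) (vv (gc, 1)) xx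

theorem QQ_p : QQ wp = vv (gp, 1) := hm_p ..
theorem QQ_q : QQ wq = vv (gq, 1) := hm_q ..
theorem QQ_c : QQ wc = vv (gc, 1) := hm_c ..
theorem QQ_x : QQ wx = xx := hm_x ..

theorem QQ_dd : QQ dd = 1 := by
  rw [QQ, hm_dd]
  have h := xx_conj (-1) 0
  have e : (gc ^ (-1 : ℤ), Multiplicative.ofAdd (0 : ℤ)) = ((gc, 1) : V)⁻¹ := by
    ext <;> simp
  have e2 : (gm ^ ((-1 : ℤ) + 0), Multiplicative.ofAdd (0 : ℤ)) = ((gm, 1) : V)⁻¹ := by
    refine Prod.ext ?_ ?_
    · show gm ^ ((-1 : ℤ) + 0) = gm⁻¹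
      rw [add_zero, zpow_neg_one]
    · rfl
  rw [e, e2, map_inv] at h
  have e3 : vv (gc, 1) * xx * (vv (gc, 1))⁻¹ * xx⁻¹ = vv (gc, 1) * (vv ((gm, 1)⁻¹)) := by
    rw [← h]; simp only [mul_assoc]
  rw [e3, ← map_inv, ← map_inv, ← map_mul, ← map_mul, ← map_mul, ← map_mul, ← map_mul]
  have e4 : ((gp, 1) * (gq, 1) * (gp, 1)⁻¹ * (gq, 1)⁻¹ * ((gc, 1) * (gm, 1)⁻¹) : V) = 1 := by
    refine Prod.ext ?_ ?_
    · show gp * gq * gp⁻¹ * gq⁻¹ * (gc * gm⁻¹) = 1
      simp only [gm]; group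
    · show (1 : Z) * 1 * 1⁻¹ * 1⁻¹ * (1 * 1⁻¹) = 1
      simp
  rw [e4, map_one]

/-- Pairs `(γ, φ)` such that `φ` represents `γ`. -/
def Pairs : Subgroup (G1 × Stab) where
  carrier := {x | Lam x.1 = Om x.2 ∧
    ∀ w, QQ ((x.2 : MulAut F4) w) = x.1 * QQ w * x.1⁻¹}
  mul_mem' := by
    rintro ⟨a, φ⟩ ⟨b, ψ⟩ ⟨h1, h2⟩ ⟨h3, h4⟩
    refine ⟨?_, ?_⟩
    · show Lam (a * b) = Om (φ * ψ)
      rw [map_mul, map_mul]
      exact congrArg₂ _ h1 h3
    · intro w
      show QQ ((φ : MulAut F4) ((ψ : MulAut F4) w)) = a * b * QQ w * (a * b)⁻¹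
      rw [h2, h4]
      simp only [mul_assoc, mul_inv_rev]
  one_mem' := by
    refine ⟨?_, ?_⟩
    · show Lam 1 = Om 1
      rw [map_one, map_one]
    · intro w
      show QQ w = 1 * QQ w * 1⁻¹
      simp
  inv_mem' := by
    rintro ⟨a, φ⟩ ⟨h1, h2⟩
    refine ⟨?_, ?_⟩
    · show Lam a⁻¹ = Om φ⁻¹
      rw [map_inv, map_inv]
      exact congrArg _ h1
    · intro w
      show QQ ((φ : MulAut F4).symm w) = a⁻¹ * QQ w * (a⁻¹)⁻¹
      have h := h2 ((φ : MulAut F4).symm w)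
      dsimp only at h
      rw [MulEquiv.apply_symm_apply] at h
      rw [h]
      group

theorem pair_of_gen {γ : G1} {φ : Stab} (h1 : Lam γ = Om φ)
    (hp : QQ ((φ : MulAut F4) wp) = γ * QQ wp * γ⁻¹)
    (hq : QQ ((φ : MulAut F4) wq) = γ * QQ wq * γ⁻¹)
    (hc : QQ ((φ : MulAut F4) wc) = γ * QQ wc * γ⁻¹)
    (hx : QQ ((φ : MulAut F4) wx) = γ * QQ wx * γ⁻¹) : (γ, φ) ∈ Pairs := by
  refine ⟨h1, ?_⟩
  have : QQ.comp (φ : MulAut F4).toMonoidHom = ((MulAut.conj γ).toMonoidHom).comp QQ :=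
    hom_ext4 hp hq hc hx
  intro w
  exact DFunLike.congr_fun this w

theorem sV_one_right (w : F3) : sV (w, 1) = sF w := by
  have := sV_apply w 0
  simpa using this

theorem pair_p : ((vv (gp, 1), sPp) : G1 × Stab) ∈ Pairs := by
  have h : ∀ w, (sPp : MulAut F4) w = fPp w := fun w => rfl
  apply pair_of_gen
  · rw [Lam_vv, sV_one_right, sF_p]
  · rw [h, fPp_p, QQ_p]; group
  · rw [h, fPp_q, map_mul, map_mul, map_mul, map_inv, map_inv, QQ_dd, QQ_p, QQ_q]; group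
  · rw [h, fPp_c, map_mul, map_mul, map_mul, map_mul, map_inv, map_inv, QQ_dd, QQ_p, QQ_c]; group
  · rw [h, fPp_x, map_mul, map_mul, map_mul, map_mul, map_inv, map_inv, QQ_dd, QQ_p, QQ_x]; group

theorem pair_q : ((vv (gq, 1), sPq) : G1 × Stab) ∈ Pairs := by
  have h : ∀ w, (sPq : MulAut F4) w = fPq w := fun w => rfl
  apply pair_of_gen
  · rw [Lam_vv, sV_one_right, sF_q]
  · rw [h, fPq_p]; simp only [map_mul, map_inv, QQ_dd, QQ_p, QQ_q]; group
  · rw [h, fPq_q, QQ_q]; group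
  · rw [h, fPq_c]; simp only [map_mul, map_inv, QQ_dd, QQ_c, QQ_q]; group
  · rw [h, fPq_x]; simp only [map_mul, map_inv, QQ_dd, QQ_x, QQ_q]; group

theorem pair_c : ((vv (gc, 1), sPc) : G1 × Stab) ∈ Pairs := by
  have h : ∀ w, (sPc : MulAut F4) w = fPc w := fun w => rfl
  apply pair_of_gen
  · rw [Lam_vv, sV_one_right, sF_c]
  · rw [h, fPc_p]; simp only [map_mul, map_inv, QQ_dd, QQ_p, QQ_c]; group
  · rw [h, fPc_q]; simp only [map_mul, map_inv, QQ_dd, QQ_q, QQ_c]; group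
  · rw [h, fPc_c, QQ_c]; group
  · rw [h, fPc_x]; simp only [map_mul, map_inv, QQ_dd, QQ_x, QQ_c]; group

theorem pair_x : ((xx, sPx) : G1 × Stab) ∈ Pairs := by
  have h : ∀ w, (sPx : MulAut F4) w = fPx w := fun w => rfl
  apply pair_of_gen
  · exact Lam_xx
  · rw [h, fPx_p]; simp only [map_mul, map_inv, QQ_dd, QQ_p, QQ_x]; group
  · rw [h, fPx_q]; simp only [map_mul, map_inv, QQ_dd, QQ_q, QQ_x]; group
  · rw [h, fPx_c]; simp only [map_mul, map_inv, QQ_dd, QQ_c, QQ_x]; group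
  · rw [h, fPx_x, QQ_x]; group

theorem tt_comm (w : F3) : tt * vv (w, 1) * tt⁻¹ = vv (w, 1) := by
  rw [tt, ← map_inv, ← map_mul, ← map_mul]
  congr 1
  refine Prod.ext ?_ ?_
  · show (1 : F3) * w * 1⁻¹ = w
    simp
  · show z1 * 1 * z1⁻¹ = 1
    simp

theorem tt_xx : tt * xx * tt⁻¹ = xx * (vv (gc, 1))⁻¹ := by
  have h := xx_conj (-1) 1
  have e2 : (gm ^ ((-1 : ℤ) + 1), Multiplicative.ofAdd (1 : ℤ)) = ((1, z1) : V) := by
    refine Prod.ext ?_ ?_
    · show gm ^ ((-1 : ℤ) + 1) = 1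
      rw [neg_add_cancel, zpow_zero]
    · rfl
  have e1 : (gc ^ (-1 : ℤ), Multiplicative.ofAdd (1 : ℤ)) = ((gc, 1) : V)⁻¹ * (1, z1) := by
    refine Prod.ext ?_ ?_
    · show gc ^ (-1 : ℤ) = gc⁻¹ * 1
      rw [zpow_neg_one, mul_one]
    · rfl
  rw [e1, e2, map_mul, map_inv] at h
  have h' : tt = xx * ((vv (gc, 1))⁻¹ * tt) * xx⁻¹ := h.symm
  calc tt * xx * tt⁻¹ = (xx * ((vv (gc, 1))⁻¹ * tt) * xx⁻¹) * xx * tt⁻¹ := by rw [← h']
    _ = xx * (vv (gc, 1))⁻¹ := by group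

theorem pair_t : ((tt, sT) : G1 × Stab) ∈ Pairs := by
  have h : ∀ w, (sT : MulAut F4) w = fT w := fun w => rfl
  apply pair_of_gen
  · rw [tt, Lam_vv]
    have : sV (1, z1) = sF 1 * sT ^ (1 : ℤ) := sV_apply 1 1
    rw [this, map_one sF, one_mul, zpow_one]
  · rw [h, fT_p, QQ_p, tt_comm]
  · rw [h, fT_q, QQ_q, tt_comm]
  · rw [h, fT_c, QQ_c, tt_comm]
  · rw [h, fT_x, QQ_x, map_mul, map_inv, QQ_x, QQ_c, tt_xx]

theorem exists_pair (γ : G1) : ∃ φ : Stab, (γ, φ) ∈ Pairs := by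
  induction γ using HNNExtension.induction_on with
  | of v =>
    obtain ⟨w, k⟩ := v
    have hw : ∃ φ : Stab, ((vv (w, 1), φ) : G1 × Stab) ∈ Pairs := by
      induction w using FreeGroup.induction_on with
      | C1 => exact ⟨1, by
          have : vv ((1 : F3), (1 : Z)) = 1 := map_one vv
          rw [this]; exact one_mem Pairs⟩
      | of i =>
        fin_cases i
        · exact ⟨sPp, pair_p⟩
        · exact ⟨sPq, pair_q⟩
        · exact ⟨sPc, pair_c⟩
      | inv_of i ih =>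
        obtain ⟨φ, h⟩ := ih
        refine ⟨φ⁻¹, ?_⟩
        have := inv_mem h
        have e : (vv (FreeGroup.of i, 1))⁻¹ = vv ((FreeGroup.of i)⁻¹, 1) := by
          rw [← map_inv]; rfl
        rw [← e]; exact this
      | mul x y hx hy =>
        obtain ⟨φ, h⟩ := hx
        obtain ⟨ψ, h'⟩ := hy
        refine ⟨φ * ψ, ?_⟩
        have := mul_mem h h'
        have e : vv (x, 1) * vv (y, 1) = vv (x * y, 1) := by
          rw [← map_mul]; rfl
        rw [← e]; exact this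
    obtain ⟨φ, h⟩ := hw
    have ht := zpow_mem pair_t (Multiplicative.toAdd k)
    refine ⟨φ * sT ^ (Multiplicative.toAdd k), ?_⟩
    have := mul_mem h ht
    have e : vv (w, 1) * tt ^ (Multiplicative.toAdd k) = vv (w, k) := by
      rw [tt_pow, ← map_mul]
      congr 1
      refine Prod.ext ?_ ?_
      · show w * 1 = w
        simp
      · show (1 : Z) * k = k
        simp
    show (vv (w, k), φ * sT ^ (Multiplicative.toAdd k)) ∈ Pairs
    rw [← e]; exact this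
  | t => exact ⟨sPx, pair_x⟩
  | mul x y hx hy =>
    obtain ⟨φ, h⟩ := hx
    obtain ⟨ψ, h'⟩ := hy
    exact ⟨φ * ψ, mul_mem h h'⟩
  | inv x hx =>
    obtain ⟨φ, h⟩ := hx
    exact ⟨φ⁻¹, inv_mem h⟩

theorem no_conj_A (g : V) : g⁻¹ * (gp, 1) * g ∉ ea.range := by
  intro h
  obtain ⟨i, hi⟩ := mem_ea h
  have h1 := congrArg chiP hi
  have : chiP (g⁻¹ * (gp, 1) * g).1 = z1 := by
    show chiP (g.1⁻¹ * gp * g.1) = z1
    rw [map_mul, map_mul, map_inv, chiP_p, mul_comm (chiP g.1)⁻¹, inv_mul_cancel_right]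
  rw [this, map_zpow, chiP_c, one_zpow] at h1
  exact absurd h1 (by decide)

theorem chiP_gm : chiP gm = 1 := by simp

theorem no_conj_B (g : V) : g⁻¹ * (gp, 1) * g ∉ eb.range := by
  intro h
  obtain ⟨i, hi⟩ := mem_eb h
  have h1 := congrArg chiP hi
  have : chiP (g⁻¹ * (gp, 1) * g).1 = z1 := by
    show chiP (g.1⁻¹ * gp * g.1) = z1
    rw [map_mul, map_mul, map_inv, chiP_p, mul_comm (chiP g.1)⁻¹, inv_mul_cancel_right]
  rw [this, map_zpow, chiP_gm, one_zpow] at h1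
  exact absurd h1 (by decide)

theorem gc_eq_gm {i j : ℤ} (h : gc ^ i = gm ^ j) : i = 0 := by
  have hij : i = j := by
    have h1 := congrArg chiC h
    rw [map_zpow, map_zpow, chiC_c, chiC_gm, ofAdd_one_zpow, ofAdd_one_zpow] at h1
    exact congrArg Multiplicative.toAdd h1
  subst hij
  have h1 := act_gc_zpow0 i 1
  rw [h, act_gm_zpow0] at h1
  have h2 : E2 ^ i = D1 ^ i := by simpa using h1
  have h3 := congrArg (FreeGroup.lift (![1, 1, 1, 1, z1, 1, 1] : Fin 7 → Z)) h2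
  rw [map_zpow, map_zpow] at h3
  simp only [FreeGroup.lift_apply_of] at h3
  have h4 : (1 : Z) ^ i = z1 ^ i := h3
  rw [one_zpow, ofAdd_one_zpow] at h4
  exact (congrArg Multiplicative.toAdd h4).symm

theorem eq_one_of_commute {γ : G1} (h : ∀ w, γ * QQ w * γ⁻¹ = QQ w) : γ = 1 := by
  have hp := h wp
  rw [QQ_p] at hp
  obtain ⟨⟨v, k⟩, rfl⟩ := mem_range_of_conj (φ := eφ) no_conj_A no_conj_B
    (x := γ) (by rw [hp]; exact ⟨_, rfl⟩)
  have hx := h wx
  rw [QQ_x] at hx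
  have hcomm : vv (v, k) * xx = xx * vv (v, k) := mul_inv_eq_iff_eq_mul.1 hx
  have hA : (v, k) ∈ ea.range := by
    apply mem_A_of_conj (φ := eφ)
    refine ⟨(v, k), ?_⟩
    show vv (v, k) = xx * vv (v, k) * xx⁻¹
    rw [← hcomm]; group
  have hB : (v, k) ∈ eb.range := by
    apply mem_B_of_conj (φ := eφ)
    refine ⟨(v, k), ?_⟩
    show vv (v, k) = xx⁻¹ * vv (v, k) * xx
    rw [mul_assoc, hcomm]; group
  obtain ⟨i, hi⟩ := mem_ea hA
  obtain ⟨j, hj⟩ := mem_eb hB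
  dsimp only at hi hj
  have hi0 := gc_eq_gm (hi.symm.trans hj)
  subst hi0
  rw [zpow_zero] at hi
  subst hi
  have h0 := xx_conj 0 (Multiplicative.toAdd k)
  have e : ((gc ^ (0 : ℤ), Multiplicative.ofAdd (Multiplicative.toAdd k)) : V) = (1, k) := by
    refine Prod.ext ?_ ?_
    · exact zpow_zero _
    · rfl
  rw [e, ← hcomm, mul_inv_cancel_right] at h0
  have h1 := congrArg Prod.fst (of_injective eφ h0)
  dsimp only at h1
  have h2 := congrArg chiC h1
  rw [map_one, map_zpow, chiC_gm, ofAdd_one_zpow, zero_add] at h2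
  have h3 : k = 1 := by
    have := congrArg Multiplicative.toAdd h2
    apply Multiplicative.toAdd.injective
    exact this.symm
  subst h3
  exact map_one vv

/-- Free product of `G1` and an infinite cyclic group. -/
abbrev GZ := HNNExtension G1 (⊥ : Subgroup G1) (⊥ : Subgroup G1) (MulEquiv.refl _)

/-- The retraction-type map `P4 → GZ`. -/
noncomputable def rr : P4 →* GZ :=
  dl ((of : G1 →* GZ).comp QQ)
    (((MulAut.conj (t : GZ)).toMonoidHom).comp ((of : G1 →* GZ).comp QQ)) (by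
      show of (QQ dd) = t * of (QQ dd) * t⁻¹
      rw [QQ_dd, map_one]; group)

theorem rr_j1 (w : F4) : rr (j1 w) = of (QQ w) := dl_j1 _ _ _ _
theorem rr_j2 (w : F4) : rr (j2 w) = t * of (QQ w) * t⁻¹ := dl_j2 _ _ _ _

theorem QQ_p_ne : QQ wp ≠ 1 := by
  rw [QQ_p]
  intro h
  have h1 : ((gp, 1) : V) = 1 := of_injective eφ (h.trans (map_one _).symm)
  have h2 := congrArg (fun v : V => chiP v.1) h1
  dsimp only at h2
  rw [chiP_p] at h2
  have h3 : z1 = 1 := h2.trans (map_one chiP)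
  exact absurd h3 (by decide)

theorem Lam_injective : Function.Injective Lam := by
  rw [injective_iff_map_eq_one]
  intro γ hγ
  obtain ⟨φ, h1, h2⟩ := exists_pair γ
  dsimp only at h1 h2
  rw [hγ] at h1
  have h3 : Dbl φ ∈ Inn4 := (QuotientGroup.eq_one_iff _).1 h1.symm
  obtain ⟨w, hw⟩ := mem_Inn4 h3
  have a1 : ∀ f, j1 ((φ : MulAut F4) f) = w * j1 f * w⁻¹ := by
    intro f; rw [← Dbl_j1, hw]; rfl
  have a2 : ∀ f, j2 ((φ : MulAut F4) f) = w * j2 f * w⁻¹ := by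
    intro f; rw [← Dbl_j2, hw]; rfl
  have b1 : ∀ f, (of (γ * QQ f * γ⁻¹) : GZ) = rr w * of (QQ f) * (rr w)⁻¹ := by
    intro f
    rw [← h2, ← rr_j1, a1, map_mul, map_mul, map_inv, rr_j1]
  have b2 : ∀ f, (t : GZ) * of (γ * QQ f * γ⁻¹) * t⁻¹ = rr w * (t * of (QQ f) * t⁻¹) * (rr w)⁻¹ := by
    intro f
    rw [← h2, ← rr_j2, a2, map_mul, map_mul, map_inv, rr_j2]
  have hbot : ∀ g : G1, g⁻¹ * QQ wp * g ∉ (⊥ : Subgroup G1) := by
    intro g hg
    rw [Subgroup.mem_bot] at hg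
    apply QQ_p_ne
    have : QQ wp = g * (g⁻¹ * QQ wp * g) * g⁻¹ := by group
    rw [this, hg]; group
  obtain ⟨W, hW⟩ := mem_range_of_conj (φ := MulEquiv.refl _) hbot hbot (x := rr w)
    ⟨_, b1 wp⟩
  obtain ⟨U, hU⟩ := mem_range_of_conj (φ := MulEquiv.refl _) hbot hbot
    (x := (t : GZ)⁻¹ * rr w * t) ⟨γ * QQ wp * γ⁻¹, by
      have := b2 wp
      have e : (of (γ * QQ wp * γ⁻¹) : GZ) = t⁻¹ * (t * of (γ * QQ wp * γ⁻¹) * t⁻¹) * t := by group
      rw [e, this]; group⟩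
  rw [← hW] at hU
  have hW1 : W = 1 := eq_one_of_conj_t hU.symm
  rw [hW1, map_one] at hW
  apply eq_one_of_commute
  intro f
  apply of_injective (MulEquiv.refl (⊥ : Subgroup G1))
  rw [b1 f, ← hW]
  group

end Pool.Agent.helper22.MCG
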