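import Pool.Agent.helper22.MCG.Base

/-!
The surface subgroup of `G1`: an injective homomorphism `fS : P4 →* G1` and the fact that the
element `t ^ 3` is not in its range.
-/

set_option autoImplicit false
set_option linter.unusedSimpArgs false

namespace Pool.Agent.helper22.MCG

open HNNExtension

/-- Free group of rank `7`. -/
abbrev F7 := FreeGroup (Fin 7)

abbrev X1 : F7 := FreeGroup.of 0
abbrev Y1 : F7 := FreeGroup.of 1
abbrev X2 : F7 := FreeGroup.of 2
abbrev Y2 : F7 := FreeGroup.of 3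
abbrev D1 : F7 := FreeGroup.of 4
abbrev D2 : F7 := FreeGroup.of 5
abbrev E2 : F7 := FreeGroup.of 6

/-- Skew permutations of `Fin 3 × K`. -/
def skew {K : Type*} [Group K] (σ : Equiv.Perm (Fin 3)) (m : Fin 3 → K) :
    Equiv.Perm (Fin 3 × K) where
  toFun x := (σ x.1, m x.1 * x.2)
  invFun x := (σ⁻¹ x.1, (m (σ⁻¹ x.1))⁻¹ * x.2)
  left_inv x := by simp
  right_inv x := by simp

theorem skew_apply {K : Type*} [Group K] (σ : Equiv.Perm (Fin 3)) (m : Fin 3 → K)
    (i : Fin 3) (u : K) : skew σ m (i, u) = (σ i, m i * u) := rfl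

theorem skew_inv_apply {K : Type*} [Group K] (σ : Equiv.Perm (Fin 3)) (m : Fin 3 → K)
    (i : Fin 3) (u : K) : (skew σ m)⁻¹ (i, u) = (σ⁻¹ i, (m (σ⁻¹ i))⁻¹ * u) := rfl

/-- The Schreier action of `F3` on `Fin 3 × F7`. -/
def act : F3 →* Equiv.Perm (Fin 3 × F7) :=
  FreeGroup.lift ![skew (finRotate 3) ![1, 1, X1],
    skew 1 ![D1 * E2⁻¹ * X1 * Y1 * X1⁻¹, X2⁻¹ * Y1, Y1],
    skew (Equiv.swap 1 2) ![D1, Y2⁻¹ * D2, Y2]]

theorem act_p (i : Fin 3) (u : F7) : act gp (i, u) = (finRotate 3 i, (![1, 1, X1] : _ → F7) i * u) := by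
  simp [act, skew_apply]

theorem act_q (i : Fin 3) (u : F7) : act gq (i, u) =
    (i, (![D1 * E2⁻¹ * X1 * Y1 * X1⁻¹, X2⁻¹ * Y1, Y1] : _ → F7) i * u) := by
  simp [act, skew_apply]

theorem act_c (i : Fin 3) (u : F7) : act gc (i, u) =
    (Equiv.swap 1 2 i, (![D1, Y2⁻¹ * D2, Y2] : _ → F7) i * u) := by
  simp [act, skew_apply]

@[simp] theorem act_p0 (u : F7) : act gp (0, u) = (1, u) := by
  rw [act_p]; simp
@[simp] theorem act_p1 (u : F7) : act gp (1, u) = (2, u) := by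
  rw [act_p]; simp
@[simp] theorem act_p2 (u : F7) : act gp (2, u) = (0, X1 * u) := by
  rw [act_p]; simp
@[simp] theorem act_q0 (u : F7) : act gq (0, u) = (0, D1 * E2⁻¹ * X1 * Y1 * X1⁻¹ * u) := by
  rw [act_q]; simp
@[simp] theorem act_q1 (u : F7) : act gq (1, u) = (1, X2⁻¹ * Y1 * u) := by
  rw [act_q]; simp
@[simp] theorem act_q2 (u : F7) : act gq (2, u) = (2, Y1 * u) := by
  rw [act_q]; simp
@[simp] theorem act_c0 (u : F7) : act gc (0, u) = (0, D1 * u) := by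
  rw [act_c]; simp; decide
@[simp] theorem act_c1 (u : F7) : act gc (1, u) = (2, Y2⁻¹ * D2 * u) := by
  rw [act_c]; simp
@[simp] theorem act_c2 (u : F7) : act gc (2, u) = (1, Y2 * u) := by
  rw [act_c]; simp

@[simp] theorem act_pi0 (u : F7) : (act gp)⁻¹ (0, u) = (2, X1⁻¹ * u) := by
  rw [Equiv.Perm.inv_eq_iff_eq]; simp
@[simp] theorem act_pi1 (u : F7) : (act gp)⁻¹ (1, u) = (0, u) := by
  rw [Equiv.Perm.inv_eq_iff_eq]; simp
@[simp] theorem act_pi2 (u : F7) : (act gp)⁻¹ (2, u) = (1, u) := by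
  rw [Equiv.Perm.inv_eq_iff_eq]; simp
@[simp] theorem act_qi0 (u : F7) :
    (act gq)⁻¹ (0, u) = (0, X1 * Y1⁻¹ * X1⁻¹ * E2 * D1⁻¹ * u) := by
  rw [Equiv.Perm.inv_eq_iff_eq]; simp [mul_assoc]
@[simp] theorem act_qi1 (u : F7) : (act gq)⁻¹ (1, u) = (1, Y1⁻¹ * X2 * u) := by
  rw [Equiv.Perm.inv_eq_iff_eq]; simp [mul_assoc]
@[simp] theorem act_qi2 (u : F7) : (act gq)⁻¹ (2, u) = (2, Y1⁻¹ * u) := by
  rw [Equiv.Perm.inv_eq_iff_eq]; simp

/-- The word in `F7` representing `E1 = p⁻¹ ([p,q]c)² p t`. -/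
abbrev E1 : F7 := D1 * E2⁻¹ * (X1 * Y1 * X1⁻¹ * Y1⁻¹ * (X2 * Y2 * X2⁻¹ * Y2⁻¹)) * D2

/-- `F7 → F3`. -/
def ev : F7 →* F3 := FreeGroup.lift ![gp * gp * gp, gp⁻¹ * gp⁻¹ * gq * gp * gp,
  gp⁻¹ * gp⁻¹ * gq * gp * gq⁻¹ * gp, gp⁻¹ * gc * gp * gp, gc, gp⁻¹ * gc * gc * gp, gm]

/-- `F7 → ℤ`. -/
def et : F7 →* Z := FreeGroup.lift ![1, 1, 1, 1, z1, z1⁻¹, z1⁻¹]

/-- `F7 → V`. -/
def fV : F7 →* V := MonoidHom.prod ev et

@[simp] theorem ev_X1 : ev X1 = gp * gp * gp := by simp [ev]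
@[simp] theorem ev_Y1 : ev Y1 = gp⁻¹ * gp⁻¹ * gq * gp * gp := by simp [ev]
@[simp] theorem ev_X2 : ev X2 = gp⁻¹ * gp⁻¹ * gq * gp * gq⁻¹ * gp := by simp [ev]
@[simp] theorem ev_Y2 : ev Y2 = gp⁻¹ * gc * gp * gp := by simp [ev]
@[simp] theorem ev_D1 : ev D1 = gc := by simp [ev]
@[simp] theorem ev_D2 : ev D2 = gp⁻¹ * gc * gc * gp := by simp [ev]
@[simp] theorem ev_E2 : ev E2 = gm := by simp [ev]
@[simp] theorem et_X1 : et X1 = 1 := by simp [et]
@[simp] theorem et_Y1 : et Y1 = 1 := by simp [et]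
@[simp] theorem et_X2 : et X2 = 1 := by simp [et]
@[simp] theorem et_Y2 : et Y2 = 1 := by simp [et]
@[simp] theorem et_D1 : et D1 = z1 := by simp [et]
@[simp] theorem et_D2 : et D2 = z1⁻¹ := by simp [et]
@[simp] theorem et_E2 : et E2 = z1⁻¹ := by simp [et]

theorem act_gm0 (u : F7) : act gm (0, u) = (0, E2 * u) := by
  simp only [gm, map_mul, map_inv, Equiv.Perm.mul_apply, act_c0, act_qi0, act_pi0, act_q2, act_p2]
  simp [mul_assoc]

theorem act_gm1 (u : F7) : act gm (1, u) = (2, X2⁻¹ * Y2⁻¹ * D2 * u) := by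
  simp only [gm, map_mul, map_inv, Equiv.Perm.mul_apply, act_c1, act_qi2, act_pi2, act_q1, act_p1]
  simp [mul_assoc]

theorem act_gm2 (u : F7) : act gm (2, u) =
    (1, D1 * E2⁻¹ * X1 * Y1 * X1⁻¹ * Y1⁻¹ * X2 * Y2 * u) := by
  simp only [gm, map_mul, map_inv, Equiv.Perm.mul_apply, act_c2, act_qi1, act_pi1, act_q0, act_p0]
  simp [mul_assoc]

/-- Key property of the Schreier action. -/
theorem act_ev (h : F7) (u : F7) : act (ev h) (0, u) = (0, h * u) := by
  induction h using FreeGroup.induction_on generalizing u with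
  | C1 => simp
  | of i =>
    fin_cases i
    · show act (ev X1) (0, u) = (0, X1 * u)
      rw [ev_X1]; simp only [map_mul, map_inv, Equiv.Perm.mul_apply, act_p0, act_p1, act_p2, act_q0, act_q1,
        act_q2, act_c0, act_c1, act_c2, act_pi0, act_pi1, act_pi2, act_qi0, act_qi1, act_qi2, mul_assoc, inv_mul_cancel_left, mul_inv_cancel_left]
    · show act (ev Y1) (0, u) = (0, Y1 * u)
      rw [ev_Y1]; simp only [map_mul, map_inv, Equiv.Perm.mul_apply, act_p0, act_p1, act_p2, act_q0, act_q1,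
        act_q2, act_c0, act_c1, act_c2, act_pi0, act_pi1, act_pi2, act_qi0, act_qi1, act_qi2, mul_assoc, inv_mul_cancel_left, mul_inv_cancel_left]
    · show act (ev X2) (0, u) = (0, X2 * u)
      rw [ev_X2]; simp only [map_mul, map_inv, Equiv.Perm.mul_apply, act_p0, act_p1, act_p2, act_q0, act_q1,
        act_q2, act_c0, act_c1, act_c2, act_pi0, act_pi1, act_pi2, act_qi0, act_qi1, act_qi2, mul_assoc, inv_mul_cancel_left, mul_inv_cancel_left]
    · show act (ev Y2) (0, u) = (0, Y2 * u)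
      rw [ev_Y2]; simp only [map_mul, map_inv, Equiv.Perm.mul_apply, act_p0, act_p1, act_p2, act_q0, act_q1,
        act_q2, act_c0, act_c1, act_c2, act_pi0, act_pi1, act_pi2, act_qi0, act_qi1, act_qi2, mul_assoc, inv_mul_cancel_left, mul_inv_cancel_left]
    · show act (ev D1) (0, u) = (0, D1 * u)
      rw [ev_D1]; simp only [map_mul, map_inv, Equiv.Perm.mul_apply, act_p0, act_p1, act_p2, act_q0, act_q1,
        act_q2, act_c0, act_c1, act_c2, act_pi0, act_pi1, act_pi2, act_qi0, act_qi1, act_qi2, mul_assoc, inv_mul_cancel_left, mul_inv_cancel_left]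
    · show act (ev D2) (0, u) = (0, D2 * u)
      rw [ev_D2]; simp only [map_mul, map_inv, Equiv.Perm.mul_apply, act_p0, act_p1, act_p2, act_q0, act_q1,
        act_q2, act_c0, act_c1, act_c2, act_pi0, act_pi1, act_pi2, act_qi0, act_qi1, act_qi2, mul_assoc, inv_mul_cancel_left, mul_inv_cancel_left]
    · show act (ev E2) (0, u) = (0, E2 * u)
      rw [ev_E2]; exact act_gm0 u
  | inv_of i ih =>
    rw [map_inv, map_inv, Equiv.Perm.inv_eq_iff_eq, ih]
    simp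
  | mul x y hx hy =>
    rw [map_mul, map_mul, Equiv.Perm.mul_apply, hy, hx, mul_assoc]

theorem ev_eq_of_act {h h' : F7} (e : act (ev h) (0, 1) = (0, h')) : h = h' := by
  rw [act_ev] at e
  simpa using e

theorem ev_injective : Function.Injective ev := by
  rw [injective_iff_map_eq_one]
  intro h e
  apply ev_eq_of_act
  rw [e]; simp

/-- Powers of a permutation acting on a point by left multiplication. -/
theorem zpow_act {K : Type*} [Group K] {π : Equiv.Perm (Fin 3 × K)} {i : Fin 3} {d : K}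
    (h : ∀ u, π (i, u) = (i, d * u)) (n : ℤ) (u : K) : (π ^ n) (i, u) = (i, d ^ n * u) := by
  have hinv : ∀ u, π⁻¹ (i, u) = (i, d⁻¹ * u) := by
    intro u
    rw [Equiv.Perm.inv_eq_iff_eq, h]; simp
  induction n using Int.induction_on generalizing u with
  | zero => simp
  | succ n ih => rw [zpow_add_one, Equiv.Perm.mul_apply, h, ih, zpow_add_one]; simp [mul_assoc]
  | pred n ih => rw [zpow_sub_one, Equiv.Perm.mul_apply, hinv, ih, zpow_sub_one]; simp [mul_assoc]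

theorem act_gc_zpow0 (n : ℤ) (u : F7) : act (gc ^ n) (0, u) = (0, D1 ^ n * u) := by
  rw [map_zpow]; exact zpow_act act_c0 n u

theorem act_gm_zpow0 (n : ℤ) (u : F7) : act (gm ^ n) (0, u) = (0, E2 ^ n * u) := by
  rw [map_zpow]; exact zpow_act act_gm0 n u

theorem act_gc_sq1 (u : F7) : act (gc * gc) (1, u) = (1, D2 * u) := by
  simp [mul_assoc]

theorem act_gm_sq1 (u : F7) : act (gm * gm) (1, u) = (1, E1 * u) := by
  rw [map_mul, Equiv.Perm.mul_apply, act_gm1, act_gm2]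
  simp [E1, mul_assoc]

theorem act_gc_zpow_even (n : ℤ) (u : F7) : act (gc ^ (2 * n)) (1, u) = (1, D2 ^ n * u) := by
  rw [zpow_mul, map_zpow, zpow_two]; exact zpow_act act_gc_sq1 n u

theorem act_gm_zpow_even (n : ℤ) (u : F7) : act (gm ^ (2 * n)) (1, u) = (1, E1 ^ n * u) := by
  rw [zpow_mul, map_zpow, zpow_two]; exact zpow_act act_gm_sq1 n u

theorem act_gc_zpow_odd (n : ℤ) (u : F7) : ∃ u', act (gc ^ (2 * n + 1)) (1, u) = (2, u') := by
  rw [add_comm, zpow_add, zpow_one, map_mul, Equiv.Perm.mul_apply, act_gc_zpow_even, act_c1]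
  exact ⟨_, rfl⟩

theorem act_gm_zpow_odd (n : ℤ) (u : F7) : ∃ u', act (gm ^ (2 * n + 1)) (1, u) = (2, u') := by
  rw [add_comm, zpow_add, zpow_one, map_mul, Equiv.Perm.mul_apply, act_gm_zpow_even, act_gm1]
  exact ⟨_, rfl⟩

end Pool.Agent.helper22.MCG
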